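import Pool.Agent.W_92892c_v15.Fam

/-!
The numbers `famA d` determine `d`.
-/

namespace MQV

theorem cond_ne {m n : ℕ} (hm : 0 < m) (h : 32 * m ^ 2 = 16 * n ^ 2) : False := by
  have h1 : n ^ 2 = 2 * m ^ 2 := by omega
  have h3 : (0 : ℝ) < m := by exact_mod_cast hm
  have h4 : (n : ℝ) ^ 2 = 2 * (m : ℝ) ^ 2 := by exact_mod_cast h1
  refine (irrational_sqrt_two.ne_rat ((n : ℚ) / m)) ?_
  push_cast
  rw [Real.sqrt_eq_iff_mul_self_eq (by norm_num) (by positivity)]
  field_simp
  linarith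

theorem cond_inj {m n : ℕ} (hm : 0 < m) (hn : 0 < n)
    (h : PPM.cond (-1) m = PPM.cond (-1) n) : m = n := by
  unfold PPM.cond at h
  rw [if_pos rfl, if_pos rfl] at h
  split_ifs at h with h1 h2 h2
  · have : m ^ 2 = n ^ 2 := by omega
    exact Nat.pow_left_injective (n := 2) (by norm_num) this
  · exact (cond_ne hm h).elim
  · exact (cond_ne hn h.symm).elim
  · have : m ^ 2 = n ^ 2 := by omega
    exact Nat.pow_left_injective (n := 2) (by norm_num) this

/-- The number `famA d` determines `d`. -/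
theorem famA_inj {d d' : ℤ} (hd : d ∈ Twists true) (hd' : d' ∈ Twists true)
    (h : famA d = famA d') : d = d' := by
  obtain ⟨h1, h2, h3⟩ := fam_toNat hd
  obtain ⟨h1', h2', h3'⟩ := fam_toNat hd'
  have hpi : (0 : ℝ) < 2 * Real.pi := by positivity
  have h4 : Real.sqrt (PPM.cond (-1) d.toNat) = Real.sqrt (PPM.cond (-1) d'.toNat) := by
    unfold famA at h
    exact (div_left_inj' hpi.ne').1 h
  have h5 : PPM.cond (-1) d.toNat = PPM.cond (-1) d'.toNat := by
    have := (Real.sqrt_inj (Nat.cast_nonneg _) (Nat.cast_nonneg _)).1 h4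
    exact_mod_cast this
  rw [← h2, ← h2', cond_inj h1 h1' h5]

end MQV
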