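import Pool.Agent.W_92892c_h3.Weak

/-!
`y² = x³ - p² x` has rank `0` for primes `p ≡ 3 (mod 8)`.
-/

set_option autoImplicit false

namespace CN3

open WeierstrassCurve WeierstrassCurve.Affine

section general

variable {F : Type*} [Field F] [DecidableEq F]

lemma addT {a e f g x y : F} (s1 : e + f + g = 0) (s2 : e * f + e * g + f * g = -a ^ 2)
    (s3 : e * f * g = 0) (hef : e - f ≠ 0) (heg : e - g ≠ 0)
    (hP : (Cv a).toAffine.Nonsingular x y) (hT : (Cv a).toAffine.Nonsingular e 0) (hy : y ≠ 0)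
    (c1 : IsSquare ((x - f) * (e - f))) (c2 : IsSquare ((x - g) * (e - g))) :
    ∃ (x3 y3 : F) (h3 : (Cv a).toAffine.Nonsingular x3 y3),
      Point.some x y hP + Point.some e 0 hT = Point.some x3 y3 h3 ∧ IsSquare (x3 - e) ∧
        IsSquare (x3 - f) ∧ IsSquare (x3 - g) := by
  have E := (eqn _ x y).mp hP.1
  have E' : y ^ 2 = (x - e) * (x - f) * (x - g) := by
    rw [E]; linear_combination x ^ 2 * s1 - x * s2 + s3
  have z : (x - e) * (x - f) * (x - g) ≠ 0 := by rw [← E']; exact pow_ne_zero 2 hy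
  have zg := (mul_ne_zero_iff.mp z).2
  have zf := (mul_ne_zero_iff.mp (mul_ne_zero_iff.mp z).1).2
  have ze := (mul_ne_zero_iff.mp (mul_ne_zero_iff.mp z).1).1
  have hxe : x ≠ e := sub_ne_zero.mp ze
  have hxy : ¬(x = e ∧ y = (Cv a).toAffine.negY e 0) := fun h => hxe h.1
  refine ⟨_, _, nonsingular_add hP hT hxy, Point.add_some hxy, ?_, ?_, ?_⟩
  · obtain ⟨α, hα⟩ := c1
    obtain ⟨β, hβ⟩ := c2
    refine ⟨α * β / y, ?_⟩
    rw [slope_of_X_ne hxe]
    simp only [WeierstrassCurve.Affine.addX, Cv]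
    have : α * β / y * (α * β / y) = (e - f) * (e - g) / (x - e) := by
      have : α * β / y * (α * β / y) = (α * α) * (β * β) / y ^ 2 := by ring
      rw [this, ← hα, ← hβ, E']
      field_simp
    rw [this]
    field_simp
    linear_combination E' - (x - e) ^ 2 * s1
  · exact sq_of_mul c1 (mul_ne_zero zf hef) (collinear (e := f)
      (by linear_combination f ^ 2 * s1 - f * s2 + s3) hP.1 hT.1 hxy)
  · exact sq_of_mul c2 (mul_ne_zero zg heg) (collinear (e := g)
      (by linear_combination g ^ 2 * s1 - g * s2 + s3) hP.1 hT.1 hxy)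

end general

/-- A norm from an unramified quadratic extension has even valuation. -/
lemma even_norm1 {p : ℕ} (hp : p.Prime) {n : ℤ} (hn : ¬ IsSquare (n : ZMod p)) (t : ℚ) :
    Even (padicValRat p (t ^ 2 - n)) := by
  have := Fact.mk hp
  have hden : (t.den : ℚ) ≠ 0 := by exact_mod_cast t.den_nz
  have hN : ¬ (p : ℤ) ∣ t.num ^ 2 - n * (t.den : ℤ) ^ 2 := by
    intro hd
    have h1 : ((t.num ^ 2 - n * (t.den : ℤ) ^ 2 : ℤ) : ZMod p) = 0 :=
      (ZMod.intCast_zmod_eq_zero_iff_dvd _ _).mpr hd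
    push_cast at h1
    by_cases hb : (t.den : ZMod p) = 0
    · have ha : (t.num : ZMod p) = 0 := by
        rw [hb] at h1
        have : (t.num : ZMod p) ^ 2 = 0 := by linear_combination h1
        exact pow_eq_zero_iff (two_ne_zero) |>.mp this
      have d1 : p ∣ t.den := (ZMod.natCast_eq_zero_iff _ _).mp hb
      have d2 : (p : ℤ) ∣ t.num := (ZMod.intCast_zmod_eq_zero_iff_dvd _ _).mp ha
      have d3 : p ∣ t.num.natAbs := Int.natCast_dvd.mp d2
      have := Nat.dvd_gcd d3 d1
      rw [t.reduced.gcd_eq_one] at this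
      exact hp.one_lt.ne' (Nat.dvd_one.mp this)
    · apply hn
      refine ⟨(t.num : ZMod p) / t.den, ?_⟩
      field_simp
      linear_combination -h1
  have hN0 : t.num ^ 2 - n * (t.den : ℤ) ^ 2 ≠ 0 := by
    intro h; exact hN (by rw [h]; exact dvd_zero _)
  have h2 : t ^ 2 - n = ((t.num ^ 2 - n * (t.den : ℤ) ^ 2 : ℤ) : ℚ) / (t.den : ℚ) ^ 2 := by
    conv_lhs => rw [← Rat.num_div_den t]
    push_cast
    field_simp
  rw [h2, padicValRat.div (by exact_mod_cast hN0) (pow_ne_zero 2 hden), padicValRat.of_int,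
    padicValInt.eq_zero_of_not_dvd hN, padicValRat.pow]
  simp

lemma even_norm {p : ℕ} (hp : p.Prime) {n : ℤ} (hn : ¬ IsSquare (n : ZMod p)) (α β : ℚ)
    (hβ : β ≠ 0) : Even (padicValRat p (α ^ 2 - n * β ^ 2)) := by
  have := Fact.mk hp
  have h1 := even_norm1 hp hn (α / β)
  by_cases h0 : (α / β) ^ 2 - n = 0
  · have : α ^ 2 - n * β ^ 2 = 0 := by
      field_simp at h0
      linear_combination h0
    rw [this]; simp
  have h2 : α ^ 2 - n * β ^ 2 = ((α / β) ^ 2 - n) * β ^ 2 := by
    field_simp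
  rw [h2, padicValRat.mul h0 (pow_ne_zero 2 hβ), padicValRat.pow]
  exact h1.add (by push_cast; exact even_two_mul _)

/-- Contradiction from an odd valuation of a norm. -/
lemma odd_absurd {p : ℕ} (hp : p.Prime) {n : ℤ} (hn : ¬ IsSquare (n : ZMod p)) {α β γ c : ℚ}
    (hβ : β ≠ 0) (hγ : γ ≠ 0) (hc : c ≠ 0) (hc' : Even (padicValRat p c))
    (h : α ^ 2 - n * β ^ 2 = c * γ ^ 2 * p) : False := by
  have := Fact.mk hp
  have h1 := even_norm hp hn α β hβ
  have hpQ : (p : ℚ) ≠ 0 := by exact_mod_cast hp.ne_zero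
  rw [h, padicValRat.mul (mul_ne_zero hc (pow_ne_zero 2 hγ)) hpQ,
    padicValRat.mul hc (pow_ne_zero 2 hγ), padicValRat.pow, padicValRat.self hp.one_lt] at h1
  have h2 : Even (padicValRat p c + ((2 : ℕ) : ℤ) * padicValRat p γ) :=
    hc'.add (by push_cast; exact even_two_mul _)
  rw [Int.even_add] at h1
  exact absurd (h1.mp h2) (by decide)

lemma val_prime {p q : ℕ} (hp : p.Prime) (hq : q.Prime) (h : q ≠ p) :
    padicValRat q (p : ℚ) = 0 := by
  have := Fact.mk hp
  have := Fact.mk hq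
  rw [padicValRat.of_nat, padicValNat_primes h]
  rfl

lemma classify1 {p : ℕ} (hp : p.Prime) {z : ℚ} (hz : 0 < z)
    (h : ∀ q : ℕ, q.Prime → q ≠ p → Even (padicValRat q z)) :
    ∃ u : ℚ, u ≠ 0 ∧ (z = u ^ 2 ∨ z = p * u ^ 2) := by
  have hpQ : (p : ℚ) ≠ 0 := by exact_mod_cast hp.ne_zero
  have hpp : (0 : ℚ) < p := by exact_mod_cast hp.pos
  by_cases hv : Even (padicValRat p z)
  · obtain ⟨u, hu⟩ := rat_sq hz (fun q hq => by
      by_cases hqp : q = p
      · rw [hqp]; exact hv
      · exact h q hq hqp)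
    refine ⟨u, ?_, Or.inl (by rw [hu]; ring)⟩
    rintro rfl
    simp at hu
    exact hz.ne' hu
  · obtain ⟨u, hu⟩ := rat_sq (mul_pos hpp hz) (fun q hq => by
      have := Fact.mk hq
      rw [padicValRat.mul hpQ hz.ne']
      by_cases hqp : q = p
      · rw [hqp, padicValRat.self hp.one_lt]
        rw [Int.not_even_iff_odd] at hv
        exact (by decide : Odd (1 : ℤ)).add_odd hv
      · rw [val_prime hp hq hqp, zero_add]
        exact h q hq hqp)
    refine ⟨u / p, ?_, Or.inr ?_⟩
    · intro h0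
      have : u = 0 := by
        rcases div_eq_zero_iff.mp h0 with h | h
        · exact h
        · exact absurd h hpQ
      rw [this] at hu
      have : (p : ℚ) * z ≠ 0 := (mul_pos hpp hz).ne'
      exact this (by rw [hu]; ring)
    · field_simp
      linear_combination hu

lemma classify2 {p : ℕ} (hp : p.Prime) {z : ℚ} (hz : 0 < z)
    (h : ∀ q : ℕ, q.Prime → q ≠ p → q ≠ 2 → Even (padicValRat q z)) :
    ∃ u : ℚ, u ≠ 0 ∧ (z = u ^ 2 ∨ z = 2 * u ^ 2 ∨ z = p * u ^ 2 ∨ z = 2 * p * u ^ 2) := by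
  by_cases hv : Even (padicValRat 2 z)
  · obtain ⟨u, hu, h1⟩ := classify1 hp hz (fun q hq hqp => by
      by_cases hq2 : q = 2
      · rw [hq2]; exact hv
      · exact h q hq hqp hq2)
    exact ⟨u, hu, by tauto⟩
  · have h2 : (0 : ℚ) < 2 * z := by positivity
    obtain ⟨u, hu, h1⟩ := classify1 hp h2 (fun q hq hqp => by
      have := Fact.mk hq
      rw [padicValRat.mul (by norm_num) hz.ne']
      by_cases hq2 : q = 2
      · rw [Int.not_even_iff_odd] at hv
        rw [hq2]
        have : padicValRat 2 (2 : ℚ) = 1 := by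
          have := padicValRat.self (p := 2) (by norm_num)
          exact_mod_cast this
        rw [this]
        exact (by decide : Odd (1 : ℤ)).add_odd hv
      · have : padicValRat q (2 : ℚ) = 0 := by
          have := val_prime Nat.prime_two hq hq2
          exact_mod_cast this
        rw [this, zero_add]
        exact h q hq hqp hq2)
    refine ⟨u / 2, by positivity, ?_⟩
    rcases h1 with h1 | h1
    · right; left; linear_combination h1 / 2
    · right; right; right; linear_combination h1 / 2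

lemma classify_sign {p : ℕ} (hp : p.Prime) {z : ℚ} (hz : z ≠ 0)
    (h : ∀ q : ℕ, q.Prime → q ≠ p → Even (padicValRat q z)) :
    ∃ u : ℚ, u ≠ 0 ∧ (z = u ^ 2 ∨ z = -u ^ 2 ∨ z = p * u ^ 2 ∨ z = -p * u ^ 2) := by
  rcases lt_or_gt_of_ne hz with h0 | h0
  · obtain ⟨u, hu, h1⟩ := classify1 hp (neg_pos.mpr h0) (fun q hq hqp => by
      rw [padicValRat.neg]; exact h q hq hqp)
    refine ⟨u, hu, ?_⟩
    rcases h1 with h1 | h1
    · right; left; linear_combination -h1
    · right; right; right; linear_combination -h1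
  · obtain ⟨u, hu, h1⟩ := classify1 hp h0 h
    exact ⟨u, hu, by tauto⟩

/-- The 2-descent on `y² = x³ - p² x` for `p ≡ 3 (mod 8)`. -/
lemma descent {p : ℕ} (hp : p.Prime) (h8 : p % 8 = 3) {x y : ℚ} (hy : y ≠ 0)
    (h : y ^ 2 = x * (x - p) * (x + p)) :
    (IsSquare x ∧ IsSquare (x - p) ∧ IsSquare (x + p)) ∨
    (IsSquare ((x - p) * (0 - p)) ∧ IsSquare ((x - -p) * (0 - -p))) ∨
    (IsSquare ((x - 0) * (p - 0)) ∧ IsSquare ((x - -p) * (p - -p))) ∨
    (IsSquare ((x - 0) * (-p - 0)) ∧ IsSquare ((x - p) * (-p - p))) := by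
  have := Fact.mk hp
  have hp2 : p ≠ 2 := by rintro rfl; norm_num at h8
  have hpQ : (p : ℚ) ≠ 0 := by exact_mod_cast hp.ne_zero
  have hpp : (0 : ℚ) < p := by exact_mod_cast hp.pos
  have n1 : ¬ IsSquare (((-1 : ℤ)) : ZMod p) := by
    have := (ZMod.exists_sq_eq_neg_one_iff (p := p)).not
    push_cast
    rw [this]
    simp only [ne_eq, not_not]
    omega
  have n2 : ¬ IsSquare (((2 : ℤ)) : ZMod p) := by
    have := (ZMod.exists_sq_eq_two_iff hp2).not
    push_cast
    rw [this]
    omega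
  have z₁ : x * (x - p) * (x + p) ≠ 0 := by rw [← h]; exact pow_ne_zero 2 hy
  have a₁ := (mul_ne_zero_iff.mp z₁).2
  have a₁' := (mul_ne_zero_iff.mp (mul_ne_zero_iff.mp z₁).1).2
  have a₁'' := (mul_ne_zero_iff.mp (mul_ne_zero_iff.mp z₁).1).1
  have ypos : 0 < x * (x - p) * (x + p) := by rw [← h]; positivity
  have hxp : 0 < x + p := by
    by_contra hcon
    have h1 : x + p < 0 := lt_of_le_of_ne (not_lt.mp hcon) a₁
    have h2 : x < 0 := by linarith
    have h3 : x - p < 0 := by linarith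
    have h4 : 0 < x * (x - p) := mul_pos_of_neg_of_neg h2 h3
    have h5 : x * (x - p) * (x + p) < 0 := mul_neg_of_pos_of_neg h4 h1
    linarith
  -- valuations
  have vq : ∀ q : ℕ, q.Prime → q ≠ p → Even (padicValRat q x) := by
    intro q hq hqp
    have := Fact.mk hq
    refine even_val hq a₁'' a₁' a₁ h ?_ ?_ ?_ ?_
    · rw [show x - (p : ℚ) - x = -p by ring, padicValRat.neg, val_prime hp hq hqp]
    · rw [show x - (p : ℚ) - x = -p by ring]; exact neg_ne_zero.mpr hpQ
    · rw [show x + (p : ℚ) - x = p by ring, val_prime hp hq hqp]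
    · rw [show x + (p : ℚ) - x = p by ring]; exact hpQ
  have wq : ∀ q : ℕ, q.Prime → q ≠ p → q ≠ 2 → Even (padicValRat q (x + p)) := by
    intro q hq hqp hq2
    have := Fact.mk hq
    have v2 : padicValRat q (2 : ℚ) = 0 := by
      have := val_prime Nat.prime_two hq hq2
      exact_mod_cast this
    refine even_val hq a₁ a₁' a₁'' (by rw [h]; ring) ?_ ?_ ?_ ?_
    · rw [show x - (p : ℚ) - (x + p) = -(2 * p) by ring, padicValRat.neg,
        padicValRat.mul (by norm_num) hpQ, v2, val_prime hp hq hqp, add_zero]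
    · rw [show x - (p : ℚ) - (x + p) = -(2 * p) by ring]; exact neg_ne_zero.mpr (by positivity)
    · rw [show x - (x + p : ℚ) = -p by ring, padicValRat.neg, val_prime hp hq hqp]
    · rw [show x - (x + p : ℚ) = -p by ring]; exact neg_ne_zero.mpr hpQ
  obtain ⟨u, hu, hx⟩ := classify_sign hp a₁'' vq
  obtain ⟨w, hw, hz⟩ := classify2 hp hxp wq
  have e1 : Even (padicValRat p (1 : ℚ)) := by simp
  have e1' : Even (padicValRat p (-1 : ℚ)) := by simp
  have e2 : Even (padicValRat p (2 : ℚ)) := by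
    have := val_prime Nat.prime_two hp hp2
    have h : padicValRat p (2 : ℚ) = 0 := by exact_mod_cast this
    rw [h]; exact Even.zero
  set s : ℚ := y / (u * w) with hs
  have s0 : s ≠ 0 := by positivity
  have hys : y = s * (u * w) := by rw [hs]; field_simp
  have huw : (u * w) ^ 2 ≠ 0 := by positivity
  have hC : ∀ b1 b3 : ℚ, x = b1 * u ^ 2 → x + p = b3 * w ^ 2 → b1 * b3 * (x - p) = s ^ 2 := by
    intro b1 b3 h1 h3
    have : (u * w) ^ 2 * (b1 * b3 * (x - p)) = (u * w) ^ 2 * s ^ 2 := by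
      have : (u * w) ^ 2 * s ^ 2 = y ^ 2 := by rw [hys]; ring
      rw [this, h]
      linear_combination (-(x - p) * (x + p)) * h1 - (x - p) * b1 * u ^ 2 * h3
    exact mul_left_cancel₀ huw this
  have P2 : (p : ℚ) ^ 2 ≠ 0 := pow_ne_zero 2 hpQ
  rcases hx with hx | hx | hx | hx <;> rcases hz with hz | hz | hz | hz
  -- b1 = 1
  · left
    have := hC 1 1 (by linear_combination hx) (by linear_combination hz)
    exact ⟨⟨u, by linear_combination hx⟩, ⟨s, by linear_combination this⟩,
      ⟨w, by linear_combination hz⟩⟩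
  · exfalso
    exact odd_absurd hp n2 (α := u) (β := w) (γ := 1) (c := -1) hw (by norm_num) (by norm_num) e1'
      (by push_cast; linear_combination hz - hx)
  · exfalso
    have := hC 1 p (by linear_combination hx) (by linear_combination hz)
    exact odd_absurd hp n1 (α := s) (β := p) (γ := u) (c := 1) hpQ hu (by norm_num) e1
      (by push_cast; linear_combination -this + p * hx)
  · exfalso
    exact odd_absurd hp n2 (α := p) (β := p * w) (γ := u) (c := -1) (mul_ne_zero hpQ hw) hu
      (by norm_num) e1' (by push_cast; linear_combination p * hz - p * hx)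
  -- b1 = -1
  · exfalso
    exact odd_absurd hp n1 (α := w) (β := u) (γ := 1) (c := 1) hu (by norm_num) (by norm_num) e1
      (by push_cast; linear_combination -hz + hx)
  · exfalso
    have := hC (-1) 2 (by linear_combination hx) (by linear_combination hz)
    exact odd_absurd hp n2 (α := s) (β := u) (γ := 1) (c := 2) hu (by norm_num) (by norm_num) e2
      (by push_cast; linear_combination -this - 2 * hx)
  · right; left
    have := hC (-1) p (by linear_combination hx) (by linear_combination hz)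
    exact ⟨⟨s, by linear_combination this⟩, ⟨p * w, by linear_combination p * hz⟩⟩
  · exfalso
    exact odd_absurd hp n2 (α := p) (β := p * w) (γ := u) (c := 1) (mul_ne_zero hpQ hw) hu
      (by norm_num) e1 (by push_cast; linear_combination p * hz - p * hx)
  -- b1 = p
  · exfalso
    exact odd_absurd hp n1 (α := p * u) (β := p) (γ := w) (c := 1) hpQ hw (by norm_num) e1
      (by push_cast; linear_combination p * hz - p * hx)
  · exfalso
    exact odd_absurd hp n1 (α := p * u) (β := p) (γ := w) (c := 2) hpQ hw (by norm_num) e2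
      (by push_cast; linear_combination p * hz - p * hx)
  · exfalso
    have := hC p p (by linear_combination hx) (by linear_combination hz)
    exact odd_absurd hp n2 (α := p ^ 2 * w) (β := p ^ 2) (γ := s) (c := 1) P2 s0 (by norm_num) e1
      (by push_cast; linear_combination p * this - p ^ 3 * hz)
  · right; right; left
    exact ⟨⟨p * u, by linear_combination p * hx⟩, ⟨2 * p * w, by linear_combination 2 * p * hz⟩⟩
  -- b1 = -p
  · exfalso
    have := hC (-p) 1 (by linear_combination hx) (by linear_combination hz)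
    exact odd_absurd hp n2 (α := s) (β := p) (γ := w) (c := -1) hpQ hw (by norm_num) e1'
      (by push_cast; linear_combination -this - p * hz)
  · right; right; right
    have := hC (-p) 2 (by linear_combination hx) (by linear_combination hz)
    exact ⟨⟨p * u, by linear_combination -p * hx⟩, ⟨s, by linear_combination this⟩⟩
  · exfalso
    have := hC (-p) p (by linear_combination hx) (by linear_combination hz)
    exact odd_absurd hp n1 (α := p ^ 2 * u) (β := p ^ 2) (γ := s) (c := 1) P2 s0 (by norm_num) e1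
      (by push_cast; linear_combination p * this + p ^ 3 * hx)
  · exfalso
    have := hC (-p) (2 * p) (by linear_combination hx) (by linear_combination hz)
    exact odd_absurd hp n1 (α := 2 * p ^ 2 * u) (β := 2 * p ^ 2) (γ := s) (c := 2) (by positivity) s0
      (by norm_num) e2 (by push_cast; linear_combination 2 * p * this + 4 * p ^ 3 * hx)

lemma disc (a : ℚ) : (Cv a).Δ = 64 * a ^ 6 := by
  simp only [WeierstrassCurve.Δ, WeierstrassCurve.b₂, WeierstrassCurve.b₄, WeierstrassCurve.b₆,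
    WeierstrassCurve.b₈, Cv]
  ring

lemma elliptic {a : ℚ} (ha : a ≠ 0) : (Cv a).IsElliptic :=
  ⟨by rw [disc]; exact (by positivity : (64 : ℚ) * a ^ 6 ≠ 0).isUnit⟩

lemma nonsing_root {a e : ℚ} (ha : a ≠ 0) (he : e ^ 3 - a ^ 2 * e = 0) :
    (Cv a).toAffine.Nonsingular e 0 := by
  have := elliptic ha
  rw [← WeierstrassCurve.Affine.equation_iff_nonsingular, eqn]
  linear_combination -he

lemma decomp {p : ℕ} (hp : p.Prime) (h8 : p % 8 = 3) (P : Pt p) :
    ∃ T Q : Pt p, T + T = 0 ∧ P = T + (Q + Q) := by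
  have hpQ : (p : ℚ) ≠ 0 := by exact_mod_cast hp.ne_zero
  rcases P with _ | ⟨x, y, hP⟩
  · exact ⟨0, 0, by simp, by simp; rfl⟩
  by_cases hy : y = 0
  · subst hy
    refine ⟨Point.some x 0 hP, 0, Point.add_self_of_Y_eq (by rw [negY_eq]; simp), by simp⟩
  have E := (eqn' _ x y).mp hP.1
  have key : ∀ e f g : ℚ, e + f + g = 0 → e * f + e * g + f * g = -(p : ℚ) ^ 2 → e * f * g = 0 →
      e - f ≠ 0 → e - g ≠ 0 → (∀ z : ℚ, IsSquare (z - e) → IsSquare (z - f) → IsSquare (z - g) →
        IsSquare z ∧ IsSquare (z - p) ∧ IsSquare (z + p)) →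
      IsSquare ((x - f) * (e - f)) → IsSquare ((x - g) * (e - g)) →
      ∃ T Q : Pt p, T + T = 0 ∧ Point.some x y hP = T + (Q + Q) := by
    intro e f g s1 s2 s3 hef heg hz c1 c2
    have hT : (Cv (p : ℚ)).toAffine.Nonsingular e 0 :=
      nonsing_root hpQ (by linear_combination e ^ 2 * s1 - e * s2 + s3)
    obtain ⟨x3, y3, h3, hadd, q1, q2, q3⟩ := addT s1 s2 s3 hef heg hP hT hy c1 c2
    obtain ⟨r1, r2, r3⟩ := hz x3 q1 q2 q3
    obtain ⟨Q, hQ⟩ := halve' (by norm_num) hpQ h3 r1 r2 r3
    have hTT : Point.some e 0 hT + Point.some e 0 hT = (0 : Pt p) :=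
      Point.add_self_of_Y_eq (by rw [negY_eq]; simp)
    refine ⟨Point.some e 0 hT, Q, hTT, ?_⟩
    rw [hQ, ← hadd, add_comm (Point.some x y hP), ← add_assoc, hTT, zero_add]
  rcases descent hp h8 hy E with ⟨c1, c2, c3⟩ | ⟨c1, c2⟩ | ⟨c1, c2⟩ | ⟨c1, c2⟩
  · obtain ⟨Q, hQ⟩ := halve' (by norm_num) hpQ hP c1 c2 c3
    exact ⟨0, Q, by simp, by rw [hQ, zero_add]⟩
  · exact key 0 p (-p) (by ring) (by ring) (by ring) (by simpa using hpQ) (by simpa using hpQ)
      (fun z h1 h2 h3 => ⟨by simpa using h1, h2, by simpa using h3⟩) c1 c2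
  · exact key p 0 (-p) (by ring) (by ring) (by ring) (by simpa using hpQ)
      (by rw [sub_neg_eq_add]; positivity)
      (fun z h1 h2 h3 => ⟨by simpa using h2, h1, by simpa using h3⟩) c1 c2
  · exact key (-p) 0 p (by ring) (by ring) (by ring) (by simpa using hpQ)
      (by rw [show -(p : ℚ) - p = -(2 * p) by ring]; exact neg_ne_zero.mpr (by positivity))
      (fun z h1 h2 h3 => ⟨by simpa using h2, h3, by simpa using h1⟩) c1 c2

/-- The rank is `0` for primes `p ≡ 3 (mod 8)`. -/
theorem rank_zero {p : ℕ} (hp : p.Prime) (h8 : p % 8 = 3) {r : ℕ} {T : Type*} [AddCommGroup T]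
    (e : Pt p ≃+ (Fin r → ℤ) × T) : r = 0 := by
  by_contra hr
  have hr' : 0 < r := Nat.pos_of_ne_zero hr
  set x : Pt p := e.symm (fun _ => 1, 0) with hx
  obtain ⟨t, Q, ht, hxt⟩ := decomp hp h8 x
  have h1 : (e x).1 ⟨0, hr'⟩ = 1 := by rw [hx]; simp
  have h2 : (e t).1 ⟨0, hr'⟩ + (e t).1 ⟨0, hr'⟩ = 0 := by
    have := congrArg (fun z => (e z).1 ⟨0, hr'⟩) ht
    simpa using this
  rw [hxt, map_add, map_add] at h1
  simp only [Prod.fst_add, Pi.add_apply] at h1
  omega

end CN3
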