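import Pool.Agent.W_92892c_h53.Ht
import Pool.Agent.W_92892c_h3.Rank0
import Pool.Agent.W_92892c_v15.Stmt

/-!
Mordell's theorem for `y² = x³ - k² x`, and the rank as `Module.finrank`.
-/

set_option autoImplicit false

namespace CN3

open WeierstrassCurve WeierstrassCurve.Affine

/-- Mordell's theorem for `y² = x³ - k² x`. -/
theorem fg {k : ℕ} (hk : k ≠ 0) : AddGroup.FG (Pt k) := by
  have hkQ : (k : ℚ) ≠ 0 := by exact_mod_cast hk
  have := elliptic hkQ
  have h := (card_quot hk).1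
  exact CNF.fg_of_weak (Cv (k : ℚ)) (AddSubgroup.finiteIndex_of_finite_quotient)

/-- The rank of `ℤ^r × T`, `T` finite. -/
theorem finrank_of_equiv {G : Type*} [AddCommGroup G] {r : ℕ} {T : Type*} [AddCommGroup T]
    [Finite T] (e : G ≃+ (Fin r → ℤ) × T) : Module.finrank ℤ G = r := by
  have h1 : Module.finrank ℤ G = Module.finrank ℤ ((Fin r → ℤ) × T) :=
    LinearEquiv.finrank_eq e.toIntLinearEquiv
  rw [h1]
  let f : ((Fin r → ℤ) × T) →ₗ[ℤ] (Fin r → ℤ) := LinearMap.fst ℤ _ _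
  have hker : LinearMap.ker f ≤ Submodule.torsion ℤ ((Fin r → ℤ) × T) := by
    intro x hx
    rw [LinearMap.mem_ker] at hx
    rw [Submodule.mem_torsion_iff]
    refine ⟨⟨(Nat.card T : ℤ), ?_⟩, ?_⟩
    · rw [mem_nonZeroDivisors_iff_ne_zero]
      exact_mod_cast Nat.card_pos.ne'
    · have h2 : x.1 = 0 := hx
      ext i
      · simp [h2]
      · simp [Submonoid.smul_def]
  have h2 := finrank_quotient_eq_of_le_torsion hker
  rw [← h2]
  have h3 : Function.Surjective f := fun v => ⟨(v, 0), rfl⟩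
  rw [LinearEquiv.finrank_eq (f.quotKerEquivOfSurjective h3)]
  simp

/-- A finitely generated abelian group is `ℤ^rank × T` with `T` finite. -/
theorem exists_equiv (G : Type*) [AddCommGroup G] [AddGroup.FG G] :
    ∃ (T : Type) (_ : AddCommGroup T) (_ : Finite T),
      Nonempty (G ≃+ (Fin (Module.finrank ℤ G) → ℤ) × T) := by
  obtain ⟨n, ι, _, p, hp, e, ⟨f⟩⟩ := AddCommGroup.equiv_free_prod_directSum_zmod G
  classical
  have hT : Finite (DirectSum ι fun i => ZMod (p i ^ e i)) := by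
    have : ∀ i, NeZero (p i ^ e i) := fun i => ⟨pow_ne_zero _ (hp i).ne_zero⟩
    exact Finite.of_equiv _ (DirectSum.addEquivProd _).symm.toEquiv
  have g : G ≃+ (Fin n → ℤ) × (DirectSum ι fun i => ZMod (p i ^ e i)) :=
    f.trans (Finsupp.addEquivFunOnFinite.prodCongr (AddEquiv.refl _))
  have h := finrank_of_equiv g
  refine ⟨_, inferInstance, hT, ?_⟩
  rw [h]
  exact ⟨g⟩

theorem finrank_le {k : ℕ} (hk : k ≠ 0) :
    Module.finrank ℤ (Pt k) ≤ 2 * k.primeFactors.card + 4 := by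
  have := fg hk
  obtain ⟨T, _, _, ⟨e⟩⟩ := exists_equiv (Pt k)
  exact rank_le hk e

theorem finrank_zero {p : ℕ} (hp : p.Prime) (h8 : p % 8 = 3) : Module.finrank ℤ (Pt p) = 0 := by
  have := fg hp.ne_zero
  obtain ⟨T, _, _, ⟨e⟩⟩ := exists_equiv (Pt p)
  exact rank_zero hp h8 e

lemma twist_map (k : ℕ) : (PPM.twist (-1) k).map (Int.castRingHom ℚ) = Cv (k : ℚ) := by
  ext <;> simp [PPM.twist, Cv, WeierstrassCurve.map]

lemma curve_map (d : ℤ) : (MQV.curve d).map (Int.castRingHom ℚ) = Cv ((d.natAbs : ℕ) : ℚ) := by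
  have h : ((d.natAbs : ℕ) : ℚ) ^ 2 = (d : ℚ) ^ 2 := by
    rw [Nat.cast_natAbs]
    push_cast
    rw [sq_abs]
  ext <;> simp [MQV.curve, Cv, WeierstrassCurve.map]

theorem desc_rank_le (k : ℕ) (hk : k ≠ 0) (r : ℕ) (T : Type) [AddCommGroup T]
    (e : ((PPM.twist (-1) k).map (Int.castRingHom ℚ)).toAffine.Point ≃+
      (Fin r → ℤ) × T) : r ≤ 2 * k.primeFactors.card + 4 := by
  rw [twist_map] at e
  exact rank_le hk e

theorem desc_rank_zero (p : ℕ) (hp : p.Prime) (h8 : p % 8 = 3) (r : ℕ) (T : Type) [AddCommGroup T]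
    (e : ((PPM.twist (-1) p).map (Int.castRingHom ℚ)).toAffine.Point ≃+
      (Fin r → ℤ) × T) : r = 0 := by
  rw [twist_map] at e
  exact rank_zero hp h8 e

theorem curve_fg {d : ℤ} (hd : d ≠ 0) : AddGroup.FG (MQV.Points (MQV.curve d)) := by
  unfold MQV.Points
  rw [curve_map]
  exact fg (Int.natAbs_ne_zero.mpr hd)

theorem curve_finrank_le {d : ℤ} (hd : d ≠ 0) :
    Module.finrank ℤ (MQV.Points (MQV.curve d)) ≤ 2 * d.natAbs.primeFactors.card + 4 := by
  unfold MQV.Points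
  rw [curve_map]
  exact finrank_le (Int.natAbs_ne_zero.mpr hd)

theorem curve_finrank_zero {p : ℕ} (hp : p.Prime) (h8 : p % 8 = 3) :
    Module.finrank ℤ (MQV.Points (MQV.curve (p : ℤ))) = 0 := by
  unfold MQV.Points
  rw [curve_map, Int.natAbs_natCast]
  exact finrank_zero hp h8

/-- The group of rational points is `ℤ^rank × T` with `T` finite. -/
theorem curve_equiv {d : ℤ} (hd : d ≠ 0) :
    ∃ (T : Type) (_ : AddCommGroup T) (_ : Finite T),
      Nonempty (MQV.Points (MQV.curve d) ≃+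
        (Fin (Module.finrank ℤ (MQV.Points (MQV.curve d))) → ℤ) × T) := by
  have := curve_fg hd
  exact exists_equiv _

end CN3
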