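import Pool.Agent.W_92892c_h3.Basic

/-!
Weak Mordell theorem for `y² = x³ - k² x` over `ℚ`, with an explicit bound.
-/

set_option autoImplicit false

namespace CN3

open WeierstrassCurve WeierstrassCurve.Affine

/-- A natural number all whose valuations are even is a square. -/
lemma nat_sq {n : ℕ} (hn : n ≠ 0) (h : ∀ q : ℕ, q.Prime → Even (padicValNat q n)) :
    IsSquare n := by
  obtain ⟨a, b, hab, ha⟩ := Nat.sq_mul_squarefree n
  by_cases h1 : a = 1
  · exact ⟨b, by rw [← hab, h1]; ring⟩
  · exfalso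
    obtain ⟨q, hq, hqa⟩ := Nat.exists_prime_and_dvd h1
    have := Fact.mk hq
    obtain ⟨c, hc⟩ := hqa
    have hb0 : b ≠ 0 := by rintro rfl; exact hn (by rw [← hab]; simp)
    have ha0 : a ≠ 0 := by rintro rfl; exact hn (by rw [← hab]; simp)
    have hc0 : c ≠ 0 := by rintro rfl; exact ha0 (by rw [hc]; simp)
    have hqc : ¬ q ∣ c := by
      rintro ⟨e, he⟩
      have : q * q ∣ a := ⟨e, by rw [hc, he]; ring⟩
      exact hq.not_isUnit (ha q this)
    have h2 := h q hq
    rw [← hab, padicValNat.mul (pow_ne_zero 2 hb0) ha0, padicValNat.pow, hc,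
      padicValNat.mul hq.ne_zero hc0, padicValNat_self, padicValNat.eq_zero_of_not_dvd hqc] at h2
    rw [Nat.even_add] at h2
    have : Even (2 * padicValNat q b) := even_two_mul _
    have h3 := h2.mp this
    exact absurd h3 (by decide)

/-- A positive rational all whose valuations are even is a square. -/
lemma rat_sq {r : ℚ} (hr : 0 < r) (h : ∀ q : ℕ, q.Prime → Even (padicValRat q r)) :
    IsSquare r := by
  have hnum : 0 < r.num := Rat.num_pos.mpr hr
  have hden : r.den ≠ 0 := r.den_nz
  have hn : r.num.natAbs ≠ 0 := by simpa using hnum.ne'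
  have key : IsSquare (r.num.natAbs * r.den) := by
    apply nat_sq (mul_ne_zero hn hden)
    intro q hq
    have := Fact.mk hq
    have h1 := h q hq
    rw [padicValNat.mul hn hden]
    unfold padicValRat padicValInt at h1
    rcases h1 with ⟨m, hm⟩
    have : ((padicValNat q r.num.natAbs + padicValNat q r.den : ℕ) : ℤ) =
        2 * (m + padicValNat q r.den) := by rw [Nat.cast_add]; linarith
    rw [← Int.even_coe_nat, this]
    exact even_two_mul _
  obtain ⟨s, hs⟩ := key
  refine ⟨(s : ℚ) / r.den, ?_⟩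
  have h3 : (r.num : ℚ) = (r.num.natAbs : ℚ) := by
    rw [Nat.cast_natAbs, abs_of_pos hnum]
  have h4 : ((r.num.natAbs : ℚ)) * r.den = s * s := by exact_mod_cast hs
  have hd : (r.den : ℚ) ≠ 0 := by exact_mod_cast hden
  conv_lhs => rw [← Rat.num_div_den r, h3]
  field_simp
  linarith


/-- The valuations of `x - e` at the primes which do not divide the differences are even. -/
lemma even_val {q : ℕ} (hq : q.Prime) {u v w y : ℚ} (hu : u ≠ 0) (hv : v ≠ 0) (hw : w ≠ 0)
    (h : y ^ 2 = u * v * w) (h1 : padicValRat q (v - u) = 0) (h1' : v - u ≠ 0)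
    (h2 : padicValRat q (w - u) = 0) (h2' : w - u ≠ 0) : Even (padicValRat q u) := by
  have := Fact.mk hq
  have hval : 2 * padicValRat q y = padicValRat q u + padicValRat q v + padicValRat q w := by
    rw [← padicValRat.mul hu hv, ← padicValRat.mul (mul_ne_zero hu hv) hw, ← h,
      padicValRat.pow]
    norm_num
  rcases lt_trichotomy (padicValRat q u) 0 with hn | hn | hn
  · have e1 : padicValRat q v = padicValRat q u := by
      have := padicValRat.add_eq_of_lt (p := q) (q := u) (r := v - u) (by simpa using hv) hu h1'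
        (by rw [h1]; exact hn)
      simpa using this
    have e2 : padicValRat q w = padicValRat q u := by
      have := padicValRat.add_eq_of_lt (p := q) (q := u) (r := w - u) (by simpa using hw) hu h2'
        (by rw [h2]; exact hn)
      simpa using this
    rw [e1, e2] at hval
    exact ⟨padicValRat q y - padicValRat q u, by linarith⟩
  · rw [hn]; exact Even.zero
  · have e1 : padicValRat q v = 0 := by
      have := padicValRat.add_eq_of_lt (p := q) (q := v - u) (r := u) (by simpa using hv) h1' hu
        (by rw [h1]; exact hn)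
      rw [← h1, ← this]
      congr 1
      ring
    have e2 : padicValRat q w = 0 := by
      have := padicValRat.add_eq_of_lt (p := q) (q := w - u) (r := u) (by simpa using hw) h2' hu
        (by rw [h2]; exact hn)
      rw [← h2, ← this]
      congr 1
      ring
    rw [e1, e2] at hval
    exact ⟨padicValRat q y, by linarith⟩

/-- The class of `x` modulo squares, seen at `∞` and the primes in `S`. -/
noncomputable def cl (S : Finset ℕ) (x : ℚ) : Bool × S.powerset :=
  (decide (0 < x), ⟨S.filter (fun q => Even (padicValRat q x)), by simp⟩)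

lemma sq_of_cl {S : Finset ℕ} {x x' : ℚ} (hx : x ≠ 0) (hx' : x' ≠ 0)
    (hS : ∀ q : ℕ, q.Prime → q ∉ S → Even (padicValRat q x))
    (hS' : ∀ q : ℕ, q.Prime → q ∉ S → Even (padicValRat q x')) (h : cl S x = cl S x') :
    IsSquare (x * x') := by
  unfold cl at h
  rw [Prod.mk.injEq, Subtype.mk.injEq, decide_eq_decide] at h
  obtain ⟨h1, h2⟩ := h
  apply rat_sq
  · rcases lt_or_gt_of_ne hx with h | h
    · have : ¬ 0 < x := by linarith
      rw [h1] at this
      have : x' < 0 := lt_of_le_of_ne (not_lt.mp this) hx'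
      exact mul_pos_of_neg_of_neg h this
    · exact mul_pos h (h1.mp h)
  · intro q hq
    have := Fact.mk hq
    rw [padicValRat.mul hx hx']
    by_cases hqS : q ∈ S
    · have h3 : q ∈ S.filter (fun q => Even (padicValRat q x)) ↔
        q ∈ S.filter (fun q => Even (padicValRat q x')) := by rw [h2]
      simp only [Finset.mem_filter, hqS, true_and] at h3
      rw [Int.even_add]
      exact h3
    · exact (hS q hq hqS).add (hS' q hq hqS)


/-- The prime divisors of `2 k`. -/
def SS (k : ℕ) : Finset ℕ := (2 * k).primeFactors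

lemma val_zero {q k : ℕ} (hk : k ≠ 0) (hq : q.Prime) (hqS : q ∉ SS k) :
    padicValRat q (2 : ℚ) = 0 ∧ padicValRat q (k : ℚ) = 0 := by
  have hnd : ¬ q ∣ 2 * k := by
    intro hd
    exact hqS (by
      unfold SS
      rw [Nat.mem_primeFactors]
      exact ⟨hq, hd, by positivity⟩)
  constructor
  · have : padicValRat q ((2 : ℕ) : ℚ) = 0 := by
      rw [padicValRat.of_nat, padicValNat.eq_zero_of_not_dvd (fun h => hnd (h.mul_right k))]
      rfl
    simpa using this
  · rw [padicValRat.of_nat, padicValNat.eq_zero_of_not_dvd (fun h => hnd (h.mul_left 2))]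
    rfl

lemma even_all {k : ℕ} (hk : k ≠ 0) {x y : ℚ} (hy : y ≠ 0)
    (h : y ^ 2 = x * (x - k) * (x + k)) (q : ℕ) (hq : q.Prime) (hqS : q ∉ SS k) :
    Even (padicValRat q x) ∧ Even (padicValRat q (x - k)) := by
  have hkQ : (k : ℚ) ≠ 0 := by exact_mod_cast hk
  have z₁ : x * (x - k) * (x + k) ≠ 0 := by rw [← h]; exact pow_ne_zero 2 hy
  have a₁ := (mul_ne_zero_iff.mp z₁).2
  have a₁' := (mul_ne_zero_iff.mp (mul_ne_zero_iff.mp z₁).1).2
  have a₁'' := (mul_ne_zero_iff.mp (mul_ne_zero_iff.mp z₁).1).1
  obtain ⟨v2, vk⟩ := val_zero hk hq hqS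
  have := Fact.mk hq
  have v2k : padicValRat q (2 * k : ℚ) = 0 := by
    rw [padicValRat.mul (by norm_num) hkQ, v2, vk, add_zero]
  constructor
  · refine even_val hq a₁'' a₁' a₁ h ?_ ?_ ?_ ?_
    · rw [show x - (k : ℚ) - x = -k by ring, padicValRat.neg, vk]
    · rw [show x - (k : ℚ) - x = -k by ring]; exact neg_ne_zero.mpr hkQ
    · rw [show x + (k : ℚ) - x = k by ring, vk]
    · rw [show x + (k : ℚ) - x = k by ring]; exact hkQ
  · refine even_val hq a₁' a₁'' a₁ (by rw [h]; ring) ?_ ?_ ?_ ?_
    · rw [show x - (x - (k : ℚ)) = k by ring, vk]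
    · rw [show x - (x - (k : ℚ)) = k by ring]; exact hkQ
    · rw [show x + (k : ℚ) - (x - k) = 2 * k by ring, v2k]
    · rw [show x + (k : ℚ) - (x - k) = 2 * k by ring]; positivity

/-- The group `E_k(ℚ)`. -/
abbrev Pt (k : ℕ) : Type := (Cv (k : ℚ)).toAffine.Point

/-- The subgroup `2 E`. -/
noncomputable abbrev HH (G : Type*) [AddCommGroup G] : AddSubgroup G := (nsmulAddMonoidHom (α := G) 2).range

lemma mem_HH {G : Type*} [AddCommGroup G] (x : G) : x ∈ HH G ↔ ∃ y, y + y = x := by
  simp only [AddMonoidHom.mem_range, nsmulAddMonoidHom_apply, two_nsmul]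

/-- The type of classes. -/
abbrev KK (k : ℕ) : Type := Fin 4 ⊕ ((Bool × (SS k).powerset) × (Bool × (SS k).powerset))

open Classical in
/-- The class of a point. -/
noncomputable def ff (k : ℕ) : Pt k → KK k
  | 0 => Sum.inl 0
  | .some x y _ => if y = 0 then (if x = 0 then Sum.inl 1 else if x = k then Sum.inl 2 else Sum.inl 3)
      else Sum.inr (cl (SS k) x, cl (SS k) (x - k))


lemma roots_of_y {k : ℕ} {x : ℚ} (h : (0 : ℚ) ^ 2 = x * (x - k) * (x + k)) :
    x = 0 ∨ x = k ∨ x = -k := by
  have h' : x * (x - k) * (x + k) = 0 := by rw [← h]; ring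
  rcases mul_eq_zero.mp h' with h | h
  · rcases mul_eq_zero.mp h with h | h
    · exact Or.inl h
    · exact Or.inr (Or.inl (by linarith))
  · exact Or.inr (Or.inr (by linarith))

lemma ff_inj {k : ℕ} (hk : k ≠ 0) (P Q : Pt k) (h : ff k P = ff k Q) : P - Q ∈ HH (Pt k) := by
  have hkQ : (k : ℚ) ≠ 0 := by exact_mod_cast hk
  rcases P with _ | ⟨x, y, hP⟩ <;> rcases Q with _ | ⟨x', y', hQ⟩
  · rw [sub_self]; exact zero_mem _
  · exfalso
    simp only [ff] at h
    split_ifs at h <;> simp at h
  · exfalso
    simp only [ff] at h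
    split_ifs at h <;> simp at h
  · have E₁ := (eqn' _ x y).mp hP.1
    have E₂ := (eqn' _ x' y').mp hQ.1
    by_cases hy : y = 0
    · by_cases hy' : y' = 0
      · have hx : x = x' := by
          subst hy hy'
          simp only [ff] at h
          rcases roots_of_y E₁ with h1 | h1 | h1 <;> rcases roots_of_y E₂ with h2 | h2 | h2 <;>
            subst h1 <;> subst h2 <;> first | rfl | skip
          all_goals
            exfalso
            revert h
            have hk2 : (-(k : ℚ)) ≠ 0 := neg_ne_zero.mpr hkQ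
            have hk3 : (-(k : ℚ)) ≠ k := by
              intro h
              apply hkQ
              linarith
            simp [hkQ, hk3, hk2]
        subst hx hy hy'
        rw [sub_self]; exact zero_mem _
      · exfalso
        simp only [ff, hy, hy', if_true, if_false] at h
        split_ifs at h
    · by_cases hy' : y' = 0
      · exfalso
        simp only [ff, hy, hy', if_true, if_false] at h
        split_ifs at h
      · simp only [ff, hy, hy', if_false] at h
        rw [Sum.inr.injEq, Prod.mk.injEq] at h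
        have z₁ : x * (x - k) * (x + k) ≠ 0 := by rw [← E₁]; exact pow_ne_zero 2 hy
        have z₂ : x' * (x' - k) * (x' + k) ≠ 0 := by rw [← E₂]; exact pow_ne_zero 2 hy'
        have a₁ := (mul_ne_zero_iff.mp z₁).2
        have a₁' := (mul_ne_zero_iff.mp (mul_ne_zero_iff.mp z₁).1).2
        have a₁'' := (mul_ne_zero_iff.mp (mul_ne_zero_iff.mp z₁).1).1
        have a₂ := (mul_ne_zero_iff.mp z₂).2
        have a₂' := (mul_ne_zero_iff.mp (mul_ne_zero_iff.mp z₂).1).2
        have a₂'' := (mul_ne_zero_iff.mp (mul_ne_zero_iff.mp z₂).1).1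
        have c1 : IsSquare (x * x') := sq_of_cl a₁'' a₂'' (fun q hq hS => (even_all hk hy E₁ q hq hS).1)
          (fun q hq hS => (even_all hk hy' E₂ q hq hS).1) h.1
        have c2 : IsSquare ((x - k) * (x' - k)) :=
          sq_of_cl a₁' a₂' (fun q hq hS => (even_all hk hy E₁ q hq hS).2)
          (fun q hq hS => (even_all hk hy' E₂ q hq hS).2) h.2
        have c3 : IsSquare ((x + k) * (x' + k)) := by
          refine sq_of_mul (u := (x * x') * ((x - k) * (x' - k))) (s := y * y') (c1.mul c2)
            (mul_ne_zero (mul_ne_zero a₁'' a₂'') (mul_ne_zero a₁' a₂')) ?_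
          rw [mul_pow, E₁, E₂]; ring
        obtain ⟨R, hR⟩ := same_class (a := (k : ℚ)) (by norm_num) hkQ hP hQ hy hy' c1 c2 c3
        rw [mem_HH]
        refine ⟨R - Point.some x' y' hQ, ?_⟩
        have : R - Point.some x' y' hQ + (R - Point.some x' y' hQ) =
          (R + R) - Point.some x' y' hQ - Point.some x' y' hQ := by abel
        rw [this, hR]
        abel

/-- Weak Mordell theorem with a bound. -/
theorem card_quot {k : ℕ} (hk : k ≠ 0) : Finite (Pt k ⧸ HH (Pt k)) ∧
    Nat.card (Pt k ⧸ HH (Pt k)) ≤ 4 + 4 ^ (2 + k.primeFactors.card) := by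
  have hinj : Function.Injective (fun c : Pt k ⧸ HH (Pt k) => ff k (Quotient.out c)) := by
    intro c c' h
    have h1 := ff_inj hk _ _ h
    rw [← QuotientAddGroup.out_eq' c, ← QuotientAddGroup.out_eq' c']
    rw [QuotientAddGroup.eq_iff_sub_mem]
    exact h1
  refine ⟨Finite.of_injective _ hinj, (Nat.card_le_card_of_injective _ hinj).trans ?_⟩
  have hc : (SS k).card ≤ 1 + k.primeFactors.card := by
    unfold SS
    rw [Nat.primeFactors_mul (by norm_num) hk]
    refine (Finset.card_union_le _ _).trans ?_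
    simp [Nat.prime_two.primeFactors]
  rw [Nat.card_eq_fintype_card]
  simp only [Fintype.card_sum, Fintype.card_fin, Fintype.card_prod, Fintype.card_bool,
    Fintype.card_coe, Finset.card_powerset]
  have : (2 * 2 ^ (SS k).card) * (2 * 2 ^ (SS k).card) = 4 ^ (1 + (SS k).card) := by
    rw [pow_add, show (4 : ℕ) ^ (SS k).card = 2 ^ (SS k).card * 2 ^ (SS k).card by
      rw [← mul_pow]; norm_num]
    ring
  rw [this]
  have := Nat.pow_le_pow_right (n := 4) (by norm_num) (show 1 + (SS k).card ≤ 2 + k.primeFactors.card by omega)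
  omega


/-- The rank of `G ≅ ℤ^r × T` is bounded by the size of `G / 2 G`. -/
theorem pow_rank_le {G : Type*} [AddCommGroup G] (hfin : Finite (G ⧸ HH G)) {r : ℕ} {T : Type*}
    [AddCommGroup T] (e : G ≃+ (Fin r → ℤ) × T) : 2 ^ r ≤ Nat.card (G ⧸ HH G) := by
  let g : G →+ (Fin r → ZMod 2) :=
    { toFun := fun x i => (((e x).1 i : ℤ) : ZMod 2)
      map_zero' := by ext i; simp
      map_add' := by intro x y; ext i; simp }
  have hg : Function.Surjective g := by
    intro v
    refine ⟨e.symm (fun i => ((v i).val : ℤ), 0), ?_⟩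
    ext i
    simp [g]
  have hker : HH G ≤ g.ker := by
    intro x hx
    rw [mem_HH] at hx
    obtain ⟨y, rfl⟩ := hx
    rw [AddMonoidHom.mem_ker, map_add]
    ext i
    exact CharTwo.add_self_eq_zero _
  have hsurj : Function.Surjective (QuotientAddGroup.lift (HH G) g hker) := by
    intro v
    obtain ⟨x, hx⟩ := hg v
    exact ⟨QuotientAddGroup.mk x, by simpa using hx⟩
  have := Nat.card_le_card_of_surjective _ hsurj
  rw [Nat.card_eq_fintype_card (α := Fin r → ZMod 2), Fintype.card_fun, ZMod.card,
    Fintype.card_fin] at this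
  exact this

/-- The rank of `E_k(ℚ)` is at most `2 ω(k) + 4`. -/
theorem rank_le {k : ℕ} (hk : k ≠ 0) {r : ℕ} {T : Type*} [AddCommGroup T]
    (e : Pt k ≃+ (Fin r → ℤ) × T) : r ≤ 2 * k.primeFactors.card + 4 := by
  obtain ⟨h1, h2⟩ := card_quot hk
  have h3 := (pow_rank_le h1 e).trans h2
  by_contra hcon
  have h4 : 2 * k.primeFactors.card + 5 ≤ r := by omega
  have h5 := Nat.pow_le_pow_right (n := 2) (by norm_num) h4
  have h6 : 2 ^ (2 * k.primeFactors.card + 5) = 2 * 4 ^ (2 + k.primeFactors.card) := by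
    rw [show (4 : ℕ) = 2 ^ 2 by norm_num, ← pow_mul, ← pow_succ']
    congr 1
    ring
  have h7 : 4 ^ 1 < 4 ^ (2 + k.primeFactors.card) := Nat.pow_lt_pow_right (by norm_num) (by omega)
  omega

end CN3
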