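import Mathlib

/-!
Full 2-descent for `y² = x³ - a² x`: the collinearity identity and the halving of points.
-/

set_option autoImplicit false

namespace CN3

open WeierstrassCurve WeierstrassCurve.Affine Polynomial

variable {F : Type*} [Field F]

/-- The curve `y² = x³ - a² x`. -/
def Cv (a : F) : WeierstrassCurve F := ⟨0, 0, 0, -a ^ 2, 0⟩

lemma eqn (a x y : F) : (Cv a).toAffine.Equation x y ↔ y ^ 2 = x ^ 3 - a ^ 2 * x := by
  rw [WeierstrassCurve.Affine.equation_iff]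
  simp only [Cv]
  constructor
  · intro h; linear_combination h
  · intro h; linear_combination h

lemma eqn' (a x y : F) : (Cv a).toAffine.Equation x y ↔ y ^ 2 = x * (x - a) * (x + a) := by
  rw [eqn]
  constructor
  · intro h; linear_combination h
  · intro h; linear_combination h

lemma negY_eq (a x y : F) : (Cv a).toAffine.negY x y = -y := by
  simp [WeierstrassCurve.Affine.negY, Cv]

variable [DecidableEq F]

/-- The line through two points evaluated at a root of the cubic. -/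
lemma collinear {a e x₁ y₁ x₂ y₂ : F} (he : e ^ 3 - a ^ 2 * e = 0)
    (h₁ : (Cv a).toAffine.Equation x₁ y₁) (h₂ : (Cv a).toAffine.Equation x₂ y₂)
    (hxy : ¬(x₁ = x₂ ∧ y₁ = (Cv a).toAffine.negY x₂ y₂)) :
    (x₁ - e) * (x₂ - e) *
      ((Cv a).toAffine.addX x₁ x₂ ((Cv a).toAffine.slope x₁ x₂ y₁ y₂) - e) =
      ((Cv a).toAffine.slope x₁ x₂ y₁ y₂ * (e - x₁) + y₁) ^ 2 := by
  have h := congrArg (Polynomial.eval e) (addPolynomial_slope h₁ h₂ hxy)
  rw [WeierstrassCurve.Affine.addPolynomial_eq] at h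
  simp only [Cubic.toPoly, eval_neg, eval_mul, eval_sub, eval_add, eval_pow, eval_X, eval_C] at h
  simp only [Cv] at h ⊢
  linear_combination -h - he


omit [DecidableEq F] in
lemma nonsing_of_ne {a x y : F} (h2 : (2 : F) ≠ 0) (h : y ^ 2 = x ^ 3 - a ^ 2 * x) (hy : y ≠ 0) :
    (Cv a).toAffine.Nonsingular x y := by
  rw [WeierstrassCurve.Affine.nonsingular_iff]
  refine ⟨(eqn a x y).mpr h, Or.inr ?_⟩
  rw [show (-y - (Cv a).toAffine.a₁ * x - (Cv a).toAffine.a₃) = -y by simp [Cv]]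
  intro h'
  have : (2 : F) * y = 0 := by linear_combination h'
  rcases mul_eq_zero.mp this with h | h
  · exact h2 h
  · exact hy h

/-- If `x`, `x - a`, `x + a` are squares, the point `(x, y)` is divisible by `2`. -/
lemma halve {a x y t₁ t₂ t₃ : F} (h2 : (2 : F) ≠ 0) (ha : a ≠ 0)
    (h : (Cv a).toAffine.Nonsingular x y) (h₁ : x = t₁ ^ 2) (h₂ : x - a = t₂ ^ 2)
    (h₃ : x + a = t₃ ^ 2) (hy : y = t₁ * t₂ * t₃) :
    ∃ Q : (Cv a).toAffine.Point, Q + Q = Point.some x y h := by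
  have n12 : t₁ + t₂ ≠ 0 := by
    intro h0
    apply ha
    have : (t₁ + t₂) * (t₁ - t₂) = a := by linear_combination h₂ - h₁
    rw [← this, h0, zero_mul]
  have n13 : t₁ + t₃ ≠ 0 := by
    intro h0
    apply ha
    have : (t₁ + t₃) * (t₃ - t₁) = a := by linear_combination h₁ - h₃
    rw [← this, h0, zero_mul]
  have n23 : t₂ + t₃ ≠ 0 := by
    intro h0
    have : (t₂ + t₃) * (t₃ - t₂) = 2 * a := by linear_combination h₂ - h₃
    rw [h0, zero_mul] at this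
    rcases mul_eq_zero.mp this.symm with h | h
    · exact h2 h
    · exact ha h
  set X : F := x + t₁ * t₂ + t₁ * t₃ + t₂ * t₃ with hX
  set Y : F := (t₁ + t₂) * (t₁ + t₃) * (t₂ + t₃) with hY
  have hY0 : Y ≠ 0 := mul_ne_zero (mul_ne_zero n12 n13) n23
  have e1 : X = (t₁ + t₂) * (t₁ + t₃) := by rw [hX, h₁]; ring
  have e2 : X - a = (t₁ + t₂) * (t₂ + t₃) := by
    rw [hX]; linear_combination h₂
  have e3 : X + a = (t₁ + t₃) * (t₂ + t₃) := by
    rw [hX]; linear_combination h₃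
  have hE : Y ^ 2 = X ^ 3 - a ^ 2 * X := by
    have : Y ^ 2 = X * (X - a) * (X + a) := by rw [e2, e3, e1, hY]; ring
    rw [this]; ring
  have hN := nonsing_of_ne h2 hE hY0
  have hne : Y ≠ (Cv a).toAffine.negY X Y := by
    rw [negY_eq]
    intro h'
    have : (2 : F) * Y = 0 := by linear_combination h'
    rcases mul_eq_zero.mp this with h | h
    · exact h2 h
    · exact hY0 h
  have hs : (Cv a).toAffine.slope X X Y Y = t₁ + t₂ + t₃ := by
    rw [slope_of_Y_ne rfl hne, negY_eq]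
    have h2Y : Y - -Y ≠ 0 := by
      intro h'
      have : (2 : F) * Y = 0 := by linear_combination h'
      rcases mul_eq_zero.mp this with h | h
      · exact h2 h
      · exact hY0 h
    rw [div_eq_iff h2Y]
    simp only [Cv]
    have : 3 * X ^ 2 - a ^ 2 = X * (X - a) + X * (X + a) + (X - a) * (X + a) := by ring
    have h3 : 3 * X ^ 2 + 2 * 0 * X + -a ^ 2 - 0 * Y = 3 * X ^ 2 - a ^ 2 := by ring
    rw [h3, this, e2, e3, e1, hY]
    ring
  refine ⟨Point.some X Y hN, ?_⟩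
  rw [Point.add_self_of_Y_ne hne]
  have hx : (Cv a).toAffine.addX X X ((Cv a).toAffine.slope X X Y Y) = x := by
    rw [hs]
    simp only [WeierstrassCurve.Affine.addX, Cv]
    rw [hX]
    linear_combination -h₁ - h₂ - h₃
  have hy' : (Cv a).toAffine.addY X X Y ((Cv a).toAffine.slope X X Y Y) = y := by
    rw [WeierstrassCurve.Affine.addY, negY_eq, WeierstrassCurve.Affine.negAddY, hx, hs, hy, hX, hY]
    ring
  simp only [Point.some.injEq]
  exact ⟨hx, hy'⟩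


lemma halve' {a x y : F} (h2 : (2 : F) ≠ 0) (ha : a ≠ 0)
    (h : (Cv a).toAffine.Nonsingular x y) (h₁ : IsSquare x) (h₂ : IsSquare (x - a))
    (h₃ : IsSquare (x + a)) :
    ∃ Q : (Cv a).toAffine.Point, Q + Q = Point.some x y h := by
  obtain ⟨t₁, h₁⟩ := h₁
  obtain ⟨t₂, h₂⟩ := h₂
  obtain ⟨t₃, h₃⟩ := h₃
  have hE := (eqn' a x y).mp h.1
  have : (y - t₁ * t₂ * t₃) * (y + t₁ * t₂ * t₃) = 0 := by
    have : y ^ 2 = (t₁ * t₁) * (t₂ * t₂) * (t₃ * t₃) := by rw [← h₁, ← h₂, ← h₃, hE]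
    linear_combination this
  rcases mul_eq_zero.mp this with hy | hy
  · exact halve h2 ha h (t₁ := t₁) (t₂ := t₂) (t₃ := t₃) (by rw [h₁]; ring)
      (by rw [h₂]; ring) (by rw [h₃]; ring) (by linear_combination hy)
  · exact halve h2 ha h (t₁ := -t₁) (t₂ := t₂) (t₃ := t₃) (by rw [h₁]; ring)
      (by rw [h₂]; ring) (by rw [h₃]; ring) (by linear_combination hy)

omit [DecidableEq F] in
lemma sq_of_mul {u v s : F} (hu : IsSquare u) (hu0 : u ≠ 0) (h : u * v = s ^ 2) : IsSquare v := by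
  obtain ⟨t, ht⟩ := hu
  have t0 : t ≠ 0 := by rintro rfl; exact hu0 (by rw [ht]; ring)
  refine ⟨s / t, ?_⟩
  field_simp
  rw [← h, ht]; ring

/-- Two points with the same class modulo squares differ by an element of `2 E`. -/
lemma same_class {a x₁ y₁ x₂ y₂ : F} (h2 : (2 : F) ≠ 0) (ha : a ≠ 0)
    (h₁ : (Cv a).toAffine.Nonsingular x₁ y₁) (h₂ : (Cv a).toAffine.Nonsingular x₂ y₂)
    (n₁ : y₁ ≠ 0) (n₂ : y₂ ≠ 0) (c₁ : IsSquare (x₁ * x₂)) (c₂ : IsSquare ((x₁ - a) * (x₂ - a)))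
    (c₃ : IsSquare ((x₁ + a) * (x₂ + a))) :
    ∃ Q : (Cv a).toAffine.Point, Q + Q = Point.some x₁ y₁ h₁ + Point.some x₂ y₂ h₂ := by
  by_cases hxy : x₁ = x₂ ∧ y₁ = (Cv a).toAffine.negY x₂ y₂
  · exact ⟨0, by rw [Point.add_of_Y_eq hxy.1 hxy.2, add_zero]⟩
  rw [Point.add_some hxy]
  have E₁ := (eqn' a x₁ y₁).mp h₁.1
  have E₂ := (eqn' a x₂ y₂).mp h₂.1
  have z₁ : x₁ * (x₁ - a) * (x₁ + a) ≠ 0 := by rw [← E₁]; exact pow_ne_zero 2 n₁
  have z₂ : x₂ * (x₂ - a) * (x₂ + a) ≠ 0 := by rw [← E₂]; exact pow_ne_zero 2 n₂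
  have a₁ := (mul_ne_zero_iff.mp z₁).2
  have a₁' := (mul_ne_zero_iff.mp (mul_ne_zero_iff.mp z₁).1).2
  have a₁'' := (mul_ne_zero_iff.mp (mul_ne_zero_iff.mp z₁).1).1
  have a₂ := (mul_ne_zero_iff.mp z₂).2
  have a₂' := (mul_ne_zero_iff.mp (mul_ne_zero_iff.mp z₂).1).2
  have a₂'' := (mul_ne_zero_iff.mp (mul_ne_zero_iff.mp z₂).1).1
  have k₁ := collinear (a := a) (e := 0) (by ring) h₁.1 h₂.1 hxy
  have k₂ := collinear (a := a) (e := a) (by ring) h₁.1 h₂.1 hxy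
  have k₃ := collinear (a := a) (e := -a) (by ring) h₁.1 h₂.1 hxy
  refine halve' h2 ha _ ?_ ?_ ?_
  · rw [sub_zero, sub_zero, sub_zero] at k₁
    exact sq_of_mul c₁ (mul_ne_zero a₁'' a₂'') k₁
  · exact sq_of_mul c₂ (mul_ne_zero a₁' a₂') k₂
  · rw [sub_neg_eq_add, sub_neg_eq_add, sub_neg_eq_add] at k₃
    exact sq_of_mul c₃ (mul_ne_zero a₁ a₂) k₃

end CN3
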