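import Pool.Agent.W_92892c_h3.Basic

/-!
Full 2-descent over any field for `y² = (x - e₁)(x - e₂)(x - e₃)`.
-/

set_option autoImplicit false

namespace CN3G

open WeierstrassCurve WeierstrassCurve.Affine Polynomial

variable {F : Type*} [Field F]

/-- The curve `y² = (x - e₁)(x - e₂)(x - e₃)`. -/
def Cw (a b c : F) : WeierstrassCurve F := ⟨0, -(a + b + c), 0, a * b + a * c + b * c, -(a * b * c)⟩

lemma eqn (a b c x y : F) :
    (Cw a b c).toAffine.Equation x y ↔ y ^ 2 = (x - a) * (x - b) * (x - c) := by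
  rw [WeierstrassCurve.Affine.equation_iff]
  simp only [Cw]
  constructor
  · intro h; linear_combination h
  · intro h; linear_combination h

lemma negY_eq (a b c x y : F) : (Cw a b c).toAffine.negY x y = -y := by
  simp [WeierstrassCurve.Affine.negY, Cw]

lemma nonsing_of_ne {a b c x y : F} (h2 : (2 : F) ≠ 0) (h : y ^ 2 = (x - a) * (x - b) * (x - c))
    (hy : y ≠ 0) : (Cw a b c).toAffine.Nonsingular x y := by
  rw [WeierstrassCurve.Affine.nonsingular_iff]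
  refine ⟨(eqn a b c x y).mpr h, Or.inr ?_⟩
  rw [show (-y - (Cw a b c).toAffine.a₁ * x - (Cw a b c).toAffine.a₃) = -y by simp [Cw]]
  intro h'
  have : (2 : F) * y = 0 := by linear_combination h'
  rcases mul_eq_zero.mp this with h | h
  · exact h2 h
  · exact hy h

variable [DecidableEq F]

/-- The line through two points evaluated at a root of the cubic. -/
lemma collinear {a b c e x₁ y₁ x₂ y₂ : F} (he : (e - a) * (e - b) * (e - c) = 0)
    (h₁ : (Cw a b c).toAffine.Equation x₁ y₁) (h₂ : (Cw a b c).toAffine.Equation x₂ y₂)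
    (hxy : ¬(x₁ = x₂ ∧ y₁ = (Cw a b c).toAffine.negY x₂ y₂)) :
    (x₁ - e) * (x₂ - e) *
      ((Cw a b c).toAffine.addX x₁ x₂ ((Cw a b c).toAffine.slope x₁ x₂ y₁ y₂) - e) =
      ((Cw a b c).toAffine.slope x₁ x₂ y₁ y₂ * (e - x₁) + y₁) ^ 2 := by
  have h := congrArg (Polynomial.eval e) (addPolynomial_slope h₁ h₂ hxy)
  rw [WeierstrassCurve.Affine.addPolynomial_eq] at h
  simp only [Cubic.toPoly, eval_neg, eval_mul, eval_sub, eval_add, eval_pow, eval_X, eval_C] at h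
  simp only [Cw] at h ⊢
  linear_combination -h - he

/-- If `x - a`, `x - b`, `x - c` are squares, the point `(x, y)` is divisible by `2`. -/
lemma halve {a b c x y t₁ t₂ t₃ : F} (h2 : (2 : F) ≠ 0) (hab : a ≠ b) (hac : a ≠ c) (hbc : b ≠ c)
    (h : (Cw a b c).toAffine.Nonsingular x y) (h₁ : x - a = t₁ ^ 2) (h₂ : x - b = t₂ ^ 2)
    (h₃ : x - c = t₃ ^ 2) (hy : y = t₁ * t₂ * t₃) :
    ∃ Q : (Cw a b c).toAffine.Point, Q + Q = Point.some x y h := by
  have n12 : t₁ + t₂ ≠ 0 := by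
    intro h0
    apply hab
    have : (t₁ + t₂) * (t₁ - t₂) = b - a := by linear_combination h₂ - h₁
    rw [h0, zero_mul] at this
    linear_combination this
  have n13 : t₁ + t₃ ≠ 0 := by
    intro h0
    apply hac
    have : (t₁ + t₃) * (t₁ - t₃) = c - a := by linear_combination h₃ - h₁
    rw [h0, zero_mul] at this
    linear_combination this
  have n23 : t₂ + t₃ ≠ 0 := by
    intro h0
    apply hbc
    have : (t₂ + t₃) * (t₂ - t₃) = c - b := by linear_combination h₃ - h₂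
    rw [h0, zero_mul] at this
    linear_combination this
  set X : F := x + t₁ * t₂ + t₁ * t₃ + t₂ * t₃ with hX
  set Y : F := (t₁ + t₂) * (t₁ + t₃) * (t₂ + t₃) with hY
  have hY0 : Y ≠ 0 := mul_ne_zero (mul_ne_zero n12 n13) n23
  have e1 : X - a = (t₁ + t₂) * (t₁ + t₃) := by rw [hX]; linear_combination h₁
  have e2 : X - b = (t₁ + t₂) * (t₂ + t₃) := by
    rw [hX]; linear_combination h₂
  have e3 : X - c = (t₁ + t₃) * (t₂ + t₃) := by
    rw [hX]; linear_combination h₃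
  have hE : Y ^ 2 = (X - a) * (X - b) * (X - c) := by
    rw [e1, e2, e3, hY]; ring
  have hN := nonsing_of_ne h2 hE hY0
  have h2Y : (2 : F) * Y ≠ 0 := mul_ne_zero h2 hY0
  have hne : Y ≠ (Cw a b c).toAffine.negY X Y := by
    rw [negY_eq]
    intro h'
    exact h2Y (by linear_combination h')
  have hs : (Cw a b c).toAffine.slope X X Y Y = t₁ + t₂ + t₃ := by
    rw [slope_of_Y_ne rfl hne, negY_eq]
    have h2Y' : Y - -Y ≠ 0 := by
      rw [show Y - -Y = 2 * Y by ring]; exact h2Y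
    rw [div_eq_iff h2Y']
    simp only [Cw]
    have h3 : 3 * X ^ 2 + 2 * -(a + b + c) * X + (a * b + a * c + b * c) - 0 * Y =
      (X - a) * (X - b) + (X - a) * (X - c) + (X - b) * (X - c) := by ring
    rw [h3, e2, e3, e1, hY]
    ring
  refine ⟨Point.some X Y hN, ?_⟩
  rw [Point.add_self_of_Y_ne hne]
  have hx : (Cw a b c).toAffine.addX X X ((Cw a b c).toAffine.slope X X Y Y) = x := by
    rw [hs]
    simp only [WeierstrassCurve.Affine.addX, Cw]
    rw [hX]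
    linear_combination -h₁ - h₂ - h₃
  have hy' : (Cw a b c).toAffine.addY X X Y ((Cw a b c).toAffine.slope X X Y Y) = y := by
    rw [WeierstrassCurve.Affine.addY, negY_eq, WeierstrassCurve.Affine.negAddY, hx, hs, hy, hX, hY]
    ring
  simp only [Point.some.injEq]
  exact ⟨hx, hy'⟩

lemma halve' {a b c x y : F} (h2 : (2 : F) ≠ 0) (hab : a ≠ b) (hac : a ≠ c) (hbc : b ≠ c)
    (h : (Cw a b c).toAffine.Nonsingular x y) (h₁ : IsSquare (x - a)) (h₂ : IsSquare (x - b))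
    (h₃ : IsSquare (x - c)) :
    ∃ Q : (Cw a b c).toAffine.Point, Q + Q = Point.some x y h := by
  obtain ⟨t₁, h₁⟩ := h₁
  obtain ⟨t₂, h₂⟩ := h₂
  obtain ⟨t₃, h₃⟩ := h₃
  have hE := (eqn a b c x y).mp h.1
  have : (y - t₁ * t₂ * t₃) * (y + t₁ * t₂ * t₃) = 0 := by
    have : y ^ 2 = (t₁ * t₁) * (t₂ * t₂) * (t₃ * t₃) := by rw [← h₁, ← h₂, ← h₃, hE]
    linear_combination this
  rcases mul_eq_zero.mp this with hy | hy
  · exact halve h2 hab hac hbc h (t₁ := t₁) (t₂ := t₂) (t₃ := t₃) (by rw [h₁]; ring)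
      (by rw [h₂]; ring) (by rw [h₃]; ring) (by linear_combination hy)
  · exact halve h2 hab hac hbc h (t₁ := -t₁) (t₂ := t₂) (t₃ := t₃) (by rw [h₁]; ring)
      (by rw [h₂]; ring) (by rw [h₃]; ring) (by linear_combination hy)

/-- Two points with the same class modulo squares differ by an element of `2 E`. -/
lemma same_class {a b c x₁ y₁ x₂ y₂ : F} (h2 : (2 : F) ≠ 0) (hab : a ≠ b) (hac : a ≠ c)
    (hbc : b ≠ c)
    (h₁ : (Cw a b c).toAffine.Nonsingular x₁ y₁) (h₂ : (Cw a b c).toAffine.Nonsingular x₂ y₂)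
    (n₁ : y₁ ≠ 0) (n₂ : y₂ ≠ 0) (c₁ : IsSquare ((x₁ - a) * (x₂ - a)))
    (c₂ : IsSquare ((x₁ - b) * (x₂ - b))) :
    ∃ Q : (Cw a b c).toAffine.Point, Q + Q = Point.some x₁ y₁ h₁ + Point.some x₂ y₂ h₂ := by
  by_cases hxy : x₁ = x₂ ∧ y₁ = (Cw a b c).toAffine.negY x₂ y₂
  · exact ⟨0, by rw [Point.add_of_Y_eq hxy.1 hxy.2, add_zero]⟩
  rw [Point.add_some hxy]
  have E₁ := (eqn a b c x₁ y₁).mp h₁.1
  have E₂ := (eqn a b c x₂ y₂).mp h₂.1
  have z₁ : (x₁ - a) * (x₁ - b) * (x₁ - c) ≠ 0 := by rw [← E₁]; exact pow_ne_zero 2 n₁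
  have z₂ : (x₂ - a) * (x₂ - b) * (x₂ - c) ≠ 0 := by rw [← E₂]; exact pow_ne_zero 2 n₂
  have a₁ := (mul_ne_zero_iff.mp z₁).2
  have a₁' := (mul_ne_zero_iff.mp (mul_ne_zero_iff.mp z₁).1).2
  have a₁'' := (mul_ne_zero_iff.mp (mul_ne_zero_iff.mp z₁).1).1
  have a₂ := (mul_ne_zero_iff.mp z₂).2
  have a₂' := (mul_ne_zero_iff.mp (mul_ne_zero_iff.mp z₂).1).2
  have a₂'' := (mul_ne_zero_iff.mp (mul_ne_zero_iff.mp z₂).1).1
  have c₃ : IsSquare ((x₁ - c) * (x₂ - c)) := by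
    refine CN3.sq_of_mul (u := ((x₁ - a) * (x₂ - a)) * ((x₁ - b) * (x₂ - b))) (s := y₁ * y₂)
      (c₁.mul c₂) (mul_ne_zero (mul_ne_zero a₁'' a₂'') (mul_ne_zero a₁' a₂')) ?_
    rw [mul_pow, E₁, E₂]; ring
  have k₁ := collinear (a := a) (b := b) (c := c) (e := a) (by ring) h₁.1 h₂.1 hxy
  have k₂ := collinear (a := a) (b := b) (c := c) (e := b) (by ring) h₁.1 h₂.1 hxy
  have k₃ := collinear (a := a) (b := b) (c := c) (e := c) (by ring) h₁.1 h₂.1 hxy
  refine halve' h2 hab hac hbc _ ?_ ?_ ?_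
  · exact CN3.sq_of_mul c₁ (mul_ne_zero a₁'' a₂'') k₁
  · exact CN3.sq_of_mul c₂ (mul_ne_zero a₁' a₂') k₂
  · exact CN3.sq_of_mul c₃ (mul_ne_zero a₁ a₂) k₃

end CN3G
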