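import Pool.Agent.W_92892c_h3.GenA
import Pool.Agent.W_92892c_h3.Weak

/-!
Bound for `E(K)/2E(K)` from a finite classification of the values `x - e`.
-/

set_option autoImplicit false

namespace CN3G

open WeierstrassCurve WeierstrassCurve.Affine

/-- The valuations of `x - e` at the primes which do not divide the differences are even. -/
lemma even_val {K Γ : Type*} [Field K] [LinearOrderedCommGroupWithZero Γ] (ν : Valuation K Γ)
    {u v w y : K} (hu : u ≠ 0) (h : y ^ 2 = u * v * w) (h1 : ν (v - u) = 1) (h2 : ν (w - u) = 1) :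
    IsSquare (ν u) := by
  have hval : ν y ^ 2 = ν u * ν v * ν w := by rw [← map_pow, h, map_mul, map_mul]
  have hu0 : ν u ≠ 0 := (Valuation.ne_zero_iff ν).mpr hu
  rcases lt_trichotomy (ν u) 1 with hn | hn | hn
  · have e1 : ν v = 1 := by
      have : ν ((v - u) + u) = ν (v - u) :=
        Valuation.map_add_eq_of_lt_left ν (by rw [h1]; exact hn)
      rw [sub_add_cancel, h1] at this
      exact this
    have e2 : ν w = 1 := by
      have : ν ((w - u) + u) = ν (w - u) :=
        Valuation.map_add_eq_of_lt_left ν (by rw [h2]; exact hn)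
      rw [sub_add_cancel, h2] at this
      exact this
    rw [e1, e2, mul_one, mul_one] at hval
    exact ⟨ν y, by rw [← hval, pow_two]⟩
  · rw [hn]; exact ⟨1, by rw [mul_one]⟩
  · have e1 : ν v = ν u := by
      have : ν ((v - u) + u) = ν u :=
        Valuation.map_add_eq_of_lt_right ν (by rw [h1]; exact hn)
      rw [sub_add_cancel] at this
      exact this
    have e2 : ν w = ν u := by
      have : ν ((w - u) + u) = ν u :=
        Valuation.map_add_eq_of_lt_right ν (by rw [h2]; exact hn)
      rw [sub_add_cancel] at this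
      exact this
    rw [e1, e2] at hval
    refine ⟨ν y / ν u, ?_⟩
    rw [div_mul_div_comm, ← pow_two, hval]
    field_simp

variable {K : Type*} [Field K] [DecidableEq K]

section quot

variable (a b c : K) {A : Type*} (f : K → A)

open Classical in
/-- The class of a point. -/
noncomputable def ff : (Cw a b c).toAffine.Point → Fin 4 ⊕ (A × A)
  | 0 => Sum.inl 0
  | .some x y _ => if y = 0 then (if x = a then Sum.inl 1 else if x = b then Sum.inl 2 else Sum.inl 3)
      else Sum.inr (f (x - a), f (x - b))

variable {a b c f}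

lemma roots_of_y {x : K} (h : (0 : K) ^ 2 = (x - a) * (x - b) * (x - c)) :
    x = a ∨ x = b ∨ x = c := by
  have h' : (x - a) * (x - b) * (x - c) = 0 := by rw [← h]; ring
  rcases mul_eq_zero.mp h' with h | h
  · rcases mul_eq_zero.mp h with h | h
    · exact Or.inl (sub_eq_zero.mp h)
    · exact Or.inr (Or.inl (sub_eq_zero.mp h))
  · exact Or.inr (Or.inr (sub_eq_zero.mp h))

lemma ff_inj (h2 : (2 : K) ≠ 0) (hab : a ≠ b) (hac : a ≠ c) (hbc : b ≠ c) (Good : K → Prop)
    (hf : ∀ z z' : K, z ≠ 0 → z' ≠ 0 → Good z → Good z' → f z = f z' → IsSquare (z * z'))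
    (hgood : ∀ x y : K, y ≠ 0 → y ^ 2 = (x - a) * (x - b) * (x - c) → Good (x - a) ∧ Good (x - b))
    (P Q : (Cw a b c).toAffine.Point) (h : ff a b c f P = ff a b c f Q) :
    P - Q ∈ CN3.HH (Cw a b c).toAffine.Point := by
  rcases P with _ | ⟨x, y, hP⟩ <;> rcases Q with _ | ⟨x', y', hQ⟩
  · rw [sub_self]; exact zero_mem _
  · exfalso
    simp only [ff] at h
    split_ifs at h <;> simp at h
  · exfalso
    simp only [ff] at h
    split_ifs at h <;> simp at h
  · have E₁ := (eqn a b c x y).mp hP.1
    have E₂ := (eqn a b c x' y').mp hQ.1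
    by_cases hy : y = 0
    · by_cases hy' : y' = 0
      · have hx : x = x' := by
          subst hy hy'
          simp only [ff] at h
          rcases roots_of_y E₁ with h1 | h1 | h1 <;> rcases roots_of_y E₂ with h2 | h2 | h2 <;>
            subst h1 <;> subst h2 <;> first | rfl | skip
          all_goals
            exfalso
            revert h
            simp [hab, hac, hbc, hab.symm, hac.symm, hbc.symm]
        subst hx hy hy'
        rw [sub_self]; exact zero_mem _
      · exfalso
        simp only [ff, hy, hy', if_true, if_false] at h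
        split_ifs at h
    · by_cases hy' : y' = 0
      · exfalso
        simp only [ff, hy, hy', if_true, if_false] at h
        split_ifs at h
      · simp only [ff, hy, hy', if_false] at h
        rw [Sum.inr.injEq, Prod.mk.injEq] at h
        have z₁ : (x - a) * (x - b) * (x - c) ≠ 0 := by rw [← E₁]; exact pow_ne_zero 2 hy
        have z₂ : (x' - a) * (x' - b) * (x' - c) ≠ 0 := by rw [← E₂]; exact pow_ne_zero 2 hy'
        have a₁' := (mul_ne_zero_iff.mp (mul_ne_zero_iff.mp z₁).1).2
        have a₁'' := (mul_ne_zero_iff.mp (mul_ne_zero_iff.mp z₁).1).1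
        have a₂' := (mul_ne_zero_iff.mp (mul_ne_zero_iff.mp z₂).1).2
        have a₂'' := (mul_ne_zero_iff.mp (mul_ne_zero_iff.mp z₂).1).1
        obtain ⟨g1, g1'⟩ := hgood x y hy E₁
        obtain ⟨g2, g2'⟩ := hgood x' y' hy' E₂
        obtain ⟨R, hR⟩ := same_class h2 hab hac hbc hP hQ hy hy' (hf _ _ a₁'' a₂'' g1 g2 h.1)
          (hf _ _ a₁' a₂' g1' g2' h.2)
        rw [CN3.mem_HH]
        refine ⟨R - Point.some x' y' hQ, ?_⟩
        have : R - Point.some x' y' hQ + (R - Point.some x' y' hQ) =
          (R + R) - Point.some x' y' hQ - Point.some x' y' hQ := by abel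
        rw [this, hR]
        abel

theorem card_quot [Fintype A] (h2 : (2 : K) ≠ 0) (hab : a ≠ b) (hac : a ≠ c) (hbc : b ≠ c)
    (Good : K → Prop)
    (hf : ∀ z z' : K, z ≠ 0 → z' ≠ 0 → Good z → Good z' → f z = f z' → IsSquare (z * z'))
    (hgood : ∀ x y : K, y ≠ 0 → y ^ 2 = (x - a) * (x - b) * (x - c) →
      Good (x - a) ∧ Good (x - b)) :
    Finite ((Cw a b c).toAffine.Point ⧸ CN3.HH (Cw a b c).toAffine.Point) ∧
    Nat.card ((Cw a b c).toAffine.Point ⧸ CN3.HH (Cw a b c).toAffine.Point) ≤
      4 + Fintype.card A ^ 2 := by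
  have hinj : Function.Injective
      (fun q : (Cw a b c).toAffine.Point ⧸ CN3.HH (Cw a b c).toAffine.Point =>
        ff a b c f (Quotient.out q)) := by
    intro q q' h
    have h1 := ff_inj h2 hab hac hbc Good hf hgood _ _ h
    rw [← QuotientAddGroup.out_eq' q, ← QuotientAddGroup.out_eq' q']
    rw [QuotientAddGroup.eq_iff_sub_mem]
    exact h1
  refine ⟨Finite.of_injective _ hinj, (Nat.card_le_card_of_injective _ hinj).trans ?_⟩
  rw [Nat.card_eq_fintype_card]
  simp only [Fintype.card_sum, Fintype.card_fin, Fintype.card_prod]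
  rw [pow_two]

end quot

end CN3G
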