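import Mathlib

/-!
Elements of a number field with even valuations outside `S`, modulo squares: at most `N 2^#S` classes.
-/

set_option autoImplicit false

namespace CN3G

open IsDedekindDomain NumberField WithZero
open scoped nonZeroDivisors

lemma even_of_isSquare_exp {n : ℤ} (h : IsSquare (exp n : WithZero (Multiplicative ℤ))) :
    Even n := by
  obtain ⟨g, hg⟩ := h
  have hg0 : g ≠ 0 := by
    rintro rfl
    simp at hg
  rw [← exp_log hg0, ← exp_add] at hg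
  exact ⟨_, exp_injective hg⟩

open Classical in
lemma sq_ideal {R : Type*} [CommRing R] [IsDedekindDomain R] {a : R} (ha : a ≠ 0)
    (h : ∀ v : HeightOneSpectrum R, IsSquare (v.intValuation a)) :
    ∃ J : Ideal R, J ≠ ⊥ ∧ Ideal.span {a} = J ^ 2 := by
  have hsp : Ideal.span {a} ≠ ⊥ := by simpa using ha
  have h0 : (Associates.mk (Ideal.span {a})) ≠ 0 := Associates.mk_ne_zero.mpr hsp
  obtain ⟨b, hb⟩ := Associates.is_pow_of_dvd_count h0 (k := 2) (by
    intro p hp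
    obtain ⟨P, rfl⟩ := Associates.mk_surjective p
    have hP : Irreducible P := Associates.irreducible_mk.mp hp
    have hP' : Prime P := hP.prime
    have h1 := h ⟨P, Ideal.isPrime_of_prime hP', hP'.ne_zero⟩
    rw [HeightOneSpectrum.intValuation_if_neg _ ha] at h1
    have h2 := even_of_isSquare_exp h1
    rw [even_neg, Int.even_coe_nat] at h2
    exact h2.two_dvd)
  obtain ⟨J, rfl⟩ := Associates.mk_surjective b
  refine ⟨J, ?_, ?_⟩
  · rintro rfl
    apply h0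
    rw [hb]
    have : Associates.mk (⊥ : Ideal R) = 0 := rfl
    rw [this]
    simp
  · rw [← Associates.mk_pow, Associates.mk_eq_mk_iff_associated, associated_iff_eq] at hb
    exact hb

/-- The set of elements all whose valuations are even. -/
def AllEven (K : Type*) [Field K] [NumberField K] (z : K) : Prop :=
  z ≠ 0 ∧ ∀ v : HeightOneSpectrum (𝓞 K), IsSquare (v.valuation K z)

section

variable {K : Type*} [Field K] [NumberField K]

/-- Normal form: `z b² = a` with `a` integral and `(a) = J²`. -/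
lemma normal {z : K} (hz : AllEven K z) : ∃ (a b : 𝓞 K) (J : (Ideal (𝓞 K))⁰), a ≠ 0 ∧ b ≠ 0 ∧
    z * (b : K) ^ 2 = a ∧ Ideal.span {a} = (J : Ideal (𝓞 K)) ^ 2 := by
  obtain ⟨⟨n, ⟨d, hd⟩⟩, hk⟩ := IsLocalization.surj (nonZeroDivisors (𝓞 K)) z
  have hd' : d ≠ 0 := nonZeroDivisors.ne_zero hd
  have hdK : (algebraMap (𝓞 K) K d) ≠ 0 := by
    rw [Ne, FaithfulSMul.algebraMap_eq_zero_iff]; exact hd'
  have hk' : z * algebraMap (𝓞 K) K d = algebraMap (𝓞 K) K n := hk
  have hn : n ≠ 0 := by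
    rintro rfl
    rw [map_zero] at hk'
    exact (mul_ne_zero hz.1 hdK) hk'
  have ha : n * d ≠ 0 := mul_ne_zero hn hd'
  have hza : z * (algebraMap (𝓞 K) K d) ^ 2 = algebraMap (𝓞 K) K (n * d) := by
    rw [map_mul, ← hk']; ring
  obtain ⟨J, hJ, hJ2⟩ := sq_ideal ha (fun v => by
    have h1 := hz.2 v
    have h2 : v.intValuation (n * d) = v.valuation K z * (v.valuation K (algebraMap (𝓞 K) K d)) ^ 2 := by
      rw [← v.valuation_of_algebraMap (K := K)]
      change v.valuation K (algebraMap (𝓞 K) K (n * d)) = _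
      rw [← hza, map_mul, map_pow]
    rw [h2]
    exact h1.mul ⟨_, pow_two _⟩)
  exact ⟨n * d, d, ⟨J, mem_nonZeroDivisors_iff_ne_zero.mpr hJ⟩, ha, hd', hza, hJ2⟩

/-- Two elements with the same ideal class differ by a unit times a square. -/
lemma same_ideal_class {z z' : K} {a b a' b' : 𝓞 K} {J J' : (Ideal (𝓞 K))⁰}
    (hb : b ≠ 0) (hb' : b' ≠ 0) (h1 : z * (b : K) ^ 2 = a)
    (h1' : z' * (b' : K) ^ 2 = a') (h2 : Ideal.span {a} = (J : Ideal (𝓞 K)) ^ 2)
    (h2' : Ideal.span {a'} = (J' : Ideal (𝓞 K)) ^ 2)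
    (hc : ClassGroup.mk0 J = ClassGroup.mk0 J') :
    ∃ (u : (𝓞 K)ˣ) (g : K), z * z' = (u : 𝓞 K) * g ^ 2 := by
  obtain ⟨x, y, hx, hy, hxy⟩ := ClassGroup.mk0_eq_mk0_iff.mp hc
  have h3 : Ideal.span {x ^ 2 * a} = Ideal.span {y ^ 2 * a'} := by
    rw [← Ideal.span_singleton_mul_span_singleton, ← Ideal.span_singleton_mul_span_singleton,
      ← Ideal.span_singleton_pow, ← Ideal.span_singleton_pow, h2, h2', ← mul_pow, ← mul_pow, hxy]
  rw [Ideal.span_singleton_eq_span_singleton] at h3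
  obtain ⟨u, hu⟩ := h3
  have hbK : (b : K) ≠ 0 := by exact_mod_cast hb
  have hbK' : (b' : K) ≠ 0 := by exact_mod_cast hb'
  have hyK : (y : K) ≠ 0 := by exact_mod_cast hy
  have huK : (x : K) ^ 2 * a * (u : 𝓞 K) = (y : K) ^ 2 * a' := by exact_mod_cast congrArg (algebraMap (𝓞 K) K) hu
  refine ⟨u, x * a / (y * b * b'), ?_⟩
  field_simp
  have : z * (b : K) ^ 2 * (z' * (b' : K) ^ 2) * y ^ 2 = (u : 𝓞 K) * (x * a) ^ 2 := by
    rw [h1, h1']
    linear_combination (-(a : K)) * huK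
  linear_combination this

/-- Units modulo squares are finite in number. -/
lemma units_mod_squares : Finite ((𝓞 K)ˣ ⧸ (powMonoidHom (α := (𝓞 K)ˣ) 2).range) := by
  have : Group.FG ((𝓞 K)ˣ ⧸ (powMonoidHom (α := (𝓞 K)ˣ) 2).range) := by
    have : Group.FG (𝓞 K)ˣ := Group.fg_iff_monoid_fg.mpr inferInstance
    infer_instance
  refine CommGroup.finite_of_fg_isMulTorsion _ ?_
  intro g
  rw [isOfFinOrder_iff_pow_eq_one]
  refine ⟨2, by norm_num, ?_⟩
  induction g using QuotientGroup.induction_on with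
  | H u =>
    rw [← QuotientGroup.mk_pow, QuotientGroup.eq_one_iff]
    exact ⟨u, rfl⟩

/-- Classes modulo squares of elements with even valuations: finitely many. -/
theorem cls0 (K : Type) [Field K] [NumberField K] : ∃ (A : Type) (_ : Finite A) (f : K → A),
    ∀ z z' : K, AllEven K z → AllEven K z' → f z = f z' → IsSquare (z * z') := by
  classical
  have H : ∀ z : K, ∃ c : ClassGroup (𝓞 K), AllEven K z → ∃ (a b : 𝓞 K) (J : (Ideal (𝓞 K))⁰),
      a ≠ 0 ∧ b ≠ 0 ∧ z * (b : K) ^ 2 = a ∧ Ideal.span {a} = (J : Ideal (𝓞 K)) ^ 2 ∧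
      c = ClassGroup.mk0 J := by
    intro z
    by_cases hz : AllEven K z
    · obtain ⟨a, b, J, h1, h2, h3, h4⟩ := normal hz
      exact ⟨ClassGroup.mk0 J, fun _ => ⟨a, b, J, h1, h2, h3, h4, rfl⟩⟩
    · exact ⟨1, fun h => absurd h hz⟩
  choose c hc using H
  have R : ∀ c0 : ClassGroup (𝓞 K), ∃ r : K, (∃ z, AllEven K z ∧ c z = c0) →
      AllEven K r ∧ c r = c0 := by
    intro c0
    by_cases h : ∃ z, AllEven K z ∧ c z = c0
    · obtain ⟨z, hz⟩ := h
      exact ⟨z, fun _ => hz⟩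
    · exact ⟨1, fun h' => absurd h' h⟩
  choose r hr using R
  have Q : ∀ z : K, ∃ q : (𝓞 K)ˣ ⧸ (powMonoidHom (α := (𝓞 K)ˣ) 2).range, AllEven K z →
      ∃ (u : (𝓞 K)ˣ) (g : K), z * r (c z) = (u : 𝓞 K) * g ^ 2 ∧ q = QuotientGroup.mk u := by
    intro z
    by_cases hz : AllEven K z
    · obtain ⟨a, b, J, -, h2, h3, h4, h5⟩ := hc z hz
      obtain ⟨hr1, hr2⟩ := hr (c z) ⟨z, hz, rfl⟩
      obtain ⟨a', b', J', -, h2', h3', h4', h5'⟩ := hc (r (c z)) hr1
      obtain ⟨u, g, hug⟩ := same_ideal_class h2 h2' h3 h3' h4 h4' (by rw [← h5, ← h5', hr2])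
      exact ⟨QuotientGroup.mk u, fun _ => ⟨u, g, hug, rfl⟩⟩
    · exact ⟨1, fun h => absurd h hz⟩
  choose q hq using Q
  have := units_mod_squares (K := K)
  refine ⟨ClassGroup (𝓞 K) × ((𝓞 K)ˣ ⧸ (powMonoidHom (α := (𝓞 K)ˣ) 2).range), inferInstance,
    fun z => (c z, q z), ?_⟩
  intro z z' hz hz' hf
  rw [Prod.mk.injEq] at hf
  obtain ⟨hc1, hq1⟩ := hf
  obtain ⟨u, g, hug, hqu⟩ := hq z hz
  obtain ⟨u', g', hug', hqu'⟩ := hq z' hz'
  rw [← hc1] at hug'
  obtain ⟨⟨hr0, -⟩, -⟩ := hr (c z) ⟨z, hz, rfl⟩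
  rw [hqu, hqu', QuotientGroup.eq] at hq1
  obtain ⟨w, hw⟩ := hq1
  have hw' : u' = u * w ^ 2 := by
    have : w ^ 2 = u⁻¹ * u' := hw
    rw [this]; group
  refine ⟨(u : 𝓞 K) * (w : 𝓞 K) * g * g' / r (c z), ?_⟩
  have hwK : ((u' : 𝓞 K) : K) = (u : 𝓞 K) * (w : 𝓞 K) ^ 2 := by
    rw [hw']; push_cast; ring
  field_simp
  have h5 : (z * r (c z)) * (z' * r (c z)) = (u : 𝓞 K) * g ^ 2 * ((u' : 𝓞 K) * g' ^ 2) := by
    rw [hug, hug']
  rw [hwK] at h5
  linear_combination h5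

end

lemma isSquare_exp {n : ℤ} : IsSquare (exp n : WithZero (Multiplicative ℤ)) ↔ Even n := by
  refine ⟨even_of_isSquare_exp, ?_⟩
  rintro ⟨m, rfl⟩
  exact ⟨exp m, by rw [exp_add]⟩

lemma isSquare_mul_iff {g h : WithZero (Multiplicative ℤ)} (hg : g ≠ 0) (hh : h ≠ 0)
    (hiff : IsSquare g ↔ IsSquare h) : IsSquare (g * h) := by
  rw [← exp_log hg, ← exp_log hh] at hiff ⊢
  rw [isSquare_exp, isSquare_exp] at hiff
  rw [← exp_add, isSquare_exp, Int.even_add]
  exact hiff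

/-- Elements with even valuations outside `S`: at most `N 2^#S` classes modulo squares. -/
theorem cls (K : Type) [Field K] [NumberField K] : ∃ N : ℕ,
    ∀ S : Finset (HeightOneSpectrum (𝓞 K)), ∃ (A : Type) (_ : Fintype A) (f : K → A),
      Fintype.card A ≤ N * 2 ^ S.card ∧ ∀ z z' : K, z ≠ 0 → z' ≠ 0 →
        (∀ v : HeightOneSpectrum (𝓞 K), v ∉ S → IsSquare (v.valuation K z)) →
        (∀ v : HeightOneSpectrum (𝓞 K), v ∉ S → IsSquare (v.valuation K z')) →
        f z = f z' → IsSquare (z * z') := by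
  classical
  obtain ⟨A, hA, f, hf⟩ := cls0 K
  have := Fintype.ofFinite A
  refine ⟨Fintype.card A, fun S => ?_⟩
  let pat : K → S.powerset := fun z => ⟨S.filter (fun v => IsSquare (v.valuation K z)), by simp⟩
  have R : ∀ P : S.powerset, ∃ r : K, (∃ z : K, (z ≠ 0 ∧ ∀ v : HeightOneSpectrum (𝓞 K), v ∉ S →
      IsSquare (v.valuation K z)) ∧ pat z = P) → (r ≠ 0 ∧ ∀ v : HeightOneSpectrum (𝓞 K), v ∉ S →
      IsSquare (v.valuation K r)) ∧ pat r = P := by
    intro P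
    by_cases h : ∃ z : K, (z ≠ 0 ∧ ∀ v : HeightOneSpectrum (𝓞 K), v ∉ S →
      IsSquare (v.valuation K z)) ∧ pat z = P
    · obtain ⟨z, hz⟩ := h
      exact ⟨z, fun _ => hz⟩
    · exact ⟨1, fun h' => absurd h' h⟩
  choose r hr using R
  refine ⟨S.powerset × A, inferInstance, fun z => (pat z, f (z * r (pat z))), ?_, ?_⟩
  · rw [Fintype.card_prod, Fintype.card_coe, Finset.card_powerset, mul_comm]
  · intro z z' hz0 hz0' hz hz' hff
    rw [Prod.mk.injEq] at hff
    obtain ⟨hp, hff⟩ := hff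
    obtain ⟨⟨hr0, hr1⟩, hr2⟩ := hr (pat z) ⟨z, ⟨hz0, hz⟩, rfl⟩
    have key : ∀ w : K, w ≠ 0 → (∀ v : HeightOneSpectrum (𝓞 K), v ∉ S →
        IsSquare (v.valuation K w)) → pat w = pat z → AllEven K (w * r (pat z)) := by
      intro w hw0 hw hwp
      refine ⟨mul_ne_zero hw0 hr0, fun v => ?_⟩
      rw [map_mul]
      by_cases hv : v ∈ S
      · apply isSquare_mul_iff ((Valuation.ne_zero_iff _).mpr hw0)
          ((Valuation.ne_zero_iff _).mpr hr0)
        have h1 : v ∈ (pat w : Finset _) ↔ v ∈ (pat (r (pat z)) : Finset _) := by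
          rw [hwp, hr2]
        simpa [pat, hv] using h1
      · exact (hw v hv).mul (hr1 v hv)
    have h1 := hf _ _ (key z hz0 hz rfl) (key z' hz0' hz' hp.symm) (by rw [hff, ← hp])
    obtain ⟨t, ht⟩ := h1
    refine ⟨t / r (pat z), ?_⟩
    field_simp
    linear_combination ht

end CN3G
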