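import Pool.Agent.W_92892c_h3.GenC

/-!
Number of primes of a number field dividing an integer.
-/

set_option autoImplicit false

namespace CN3G

open IsDedekindDomain NumberField

/-- The primes of `K` which contain `d`. -/
def Over (K : Type) [Field K] [NumberField K] (d : ℤ) : Set (HeightOneSpectrum (𝓞 K)) :=
  {v | (d : 𝓞 K) ∈ v.asIdeal}

lemma over_prime (K : Type) [Field K] [NumberField K] {p : ℕ} (hp : p.Prime) :
    (Over K p).Finite ∧ (Over K p).ncard ≤ Module.finrank ℚ K := by
  classical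
  set P : Ideal ℤ := Ideal.span {(p : ℤ)} with hP
  have hP0 : P ≠ ⊥ := by
    rw [hP, Ne, Ideal.span_singleton_eq_bot]
    exact_mod_cast hp.ne_zero
  have hPprime : P.IsPrime := (Ideal.span_singleton_prime (by exact_mod_cast hp.ne_zero)).mpr
    (Nat.prime_iff_prime_int.mp hp)
  have hPmax : P.IsMaximal := hPprime.isMaximal hP0
  have hcard := Ideal.card_primesOverFinset_le_finrank (R := ℤ) (𝓞 K) ℚ K (p := P) hP0
  have hmaps : ∀ v ∈ Over K p, v.asIdeal ∈ (IsDedekindDomain.primesOverFinset P (𝓞 K) : Set (Ideal (𝓞 K))) := by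
    intro v hv
    rw [Finset.mem_coe, IsDedekindDomain.mem_primesOverFinset_iff hP0]
    refine ⟨v.isPrime, ⟨?_⟩⟩
    refine hPmax.eq_of_le ?_ ?_
    · exact Ideal.comap_ne_top _ v.isPrime.ne_top
    · rw [hP, Ideal.span_singleton_le_iff_mem]
      simpa [Over] using hv
  have hinj : Set.InjOn (fun v : HeightOneSpectrum (𝓞 K) => v.asIdeal) (Over K p) := by
    intro v _ w _ h
    exact HeightOneSpectrum.ext h
  constructor
  · exact Set.Finite.of_injOn hmaps hinj (Finset.finite_toSet _)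
  · have := Set.ncard_le_ncard_of_injOn _ hmaps hinj (Finset.finite_toSet _)
    rw [Set.ncard_coe_finset] at this
    exact this.trans hcard

lemma over_subset (K : Type) [Field K] [NumberField K] {d : ℤ} (hd : d ≠ 0) :
    Over K d ⊆ ⋃ p ∈ d.natAbs.primeFactors, Over K (p : ℤ) := by
  intro v hv
  have h1 : ((d.natAbs : ℕ) : 𝓞 K) ∈ v.asIdeal := by
    have hv' : (d : 𝓞 K) ∈ v.asIdeal := hv
    rcases Int.natAbs_eq d with h | h
    · have : ((d.natAbs : ℕ) : 𝓞 K) = (d : 𝓞 K) := by
        conv_rhs => rw [h]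
        simp
      rw [this]; exact hv'
    · have : ((d.natAbs : ℕ) : 𝓞 K) = -(d : 𝓞 K) := by
        conv_rhs => rw [h]
        simp
      rw [this]; exact neg_mem hv'
  have hn : d.natAbs ≠ 0 := Int.natAbs_ne_zero.mpr hd
  have h2 : ∏ p ∈ d.natAbs.primeFactors, ((p : 𝓞 K)) ^ (d.natAbs.factorization p) ∈ v.asIdeal := by
    have h3 : ((d.natAbs : ℕ) : 𝓞 K) =
        ∏ p ∈ d.natAbs.primeFactors, ((p : 𝓞 K)) ^ (d.natAbs.factorization p) := by
      conv_lhs => rw [Nat.prod_primeFactors_pow_factorization hn]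
      push_cast
      rfl
    rw [← h3]
    exact h1
  obtain ⟨p, hp, hpv⟩ := (v.isPrime.prod_mem_iff).mp h2
  have h3 : (p : 𝓞 K) ∈ v.asIdeal := v.isPrime.mem_of_pow_mem _ hpv
  simp only [Set.mem_iUnion]
  exact ⟨p, hp, by simpa [Over] using h3⟩

theorem over_card (K : Type) [Field K] [NumberField K] {d : ℤ} (hd : d ≠ 0) :
    (Over K d).Finite ∧ (Over K d).ncard ≤ Module.finrank ℚ K * d.natAbs.primeFactors.card := by
  have hfin : (⋃ p ∈ d.natAbs.primeFactors, Over K (p : ℤ)).Finite := by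
    apply Set.Finite.biUnion (Finset.finite_toSet _)
    intro p hp
    exact (over_prime K (Nat.prime_of_mem_primeFactors hp)).1
  refine ⟨hfin.subset (over_subset K hd), ?_⟩
  refine (Set.ncard_le_ncard (over_subset K hd) hfin).trans ?_
  refine (Finset.set_ncard_biUnion_le d.natAbs.primeFactors (fun p => Over K (p : ℤ))).trans ?_
  refine (Finset.sum_le_card_nsmul _ _ (Module.finrank ℚ K) ?_).trans ?_
  · intro p hp
    exact (over_prime K (Nat.prime_of_mem_primeFactors hp)).2
  · rw [smul_eq_mul, mul_comm]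

lemma val_eq_one (K : Type) [Field K] [NumberField K] {d : ℤ} {v : HeightOneSpectrum (𝓞 K)}
    (hv : v ∉ Over K d) : v.valuation K (d : K) = 1 := by
  have h1 : (d : 𝓞 K) ∉ v.asIdeal := hv
  have := (v.valuation_eq_one_iff_notMem (K := K) (r := (d : 𝓞 K))).mpr h1
  simpa using this

end CN3G
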