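import Pool.Agent.W_92892c_h3.GenB
import Pool.Agent.W_92892c_h3.GenD
import Pool.Agent.W_92892c_h3.MW

/-!
Mordell-Weil and the rank bound for twists over a number field which contains the `2`-torsion.
-/

set_option autoImplicit false

namespace CN3G

open WeierstrassCurve WeierstrassCurve.Affine IsDedekindDomain NumberField

lemma val_ne_one_finite (K : Type) [Field K] [NumberField K] {z : K} (hz : z ≠ 0) :
    {v : HeightOneSpectrum (𝓞 K) | v.valuation K z ≠ 1}.Finite := by
  refine ((HeightOneSpectrum.Support.finite (R := 𝓞 K) z).union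
    (HeightOneSpectrum.Support.finite (R := 𝓞 K) z⁻¹)).subset ?_
  intro v hv
  have h0 : v.valuation K z ≠ 0 := (Valuation.ne_zero_iff _).mpr hz
  rcases lt_or_gt_of_ne hv with h | h
  · right
    change 1 < v.valuation K z⁻¹
    rw [map_inv₀]
    exact (one_lt_inv₀ (zero_lt_iff.mpr h0)).mpr h
  · left
    exact h

lemma disc (F : Type*) [Field F] (a b c : F) :
    (Cw a b c).Δ = 16 * ((a - b) * (a - c) * (b - c)) ^ 2 := by
  simp only [WeierstrassCurve.Δ, WeierstrassCurve.b₂, WeierstrassCurve.b₄, WeierstrassCurve.b₆,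
    WeierstrassCurve.b₈, Cw]
  ring

lemma elliptic {F : Type*} [Field F] [CharZero F] {a b c : F} (hab : a ≠ b) (hac : a ≠ c)
    (hbc : b ≠ c) : (Cw a b c).IsElliptic :=
  ⟨by
    rw [disc]
    exact (mul_ne_zero (by norm_num) (pow_ne_zero 2 (mul_ne_zero (mul_ne_zero (sub_ne_zero.mpr hab)
      (sub_ne_zero.mpr hac)) (sub_ne_zero.mpr hbc)))).isUnit⟩

/-- Mordell-Weil and the rank bound, over a field which contains the `2`-torsion. -/
theorem nf_bound (K : Type) [Field K] [NumberField K] [DecidableEq K] {a b c : K} (hab : a ≠ b)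
    (hac : a ≠ c) (hbc : b ≠ c) : ∃ A B : ℕ, ∀ d : ℤ, d ≠ 0 →
      AddGroup.FG (Cw (d * a) (d * b) (d * c)).toAffine.Point ∧
      Module.finrank ℤ (Cw (d * a) (d * b) (d * c)).toAffine.Point ≤
        A + B * d.natAbs.primeFactors.card := by
  classical
  obtain ⟨N, hN⟩ := cls K
  set S1 := (val_ne_one_finite K (sub_ne_zero.mpr hab)).toFinset with hS1
  set S2 := (val_ne_one_finite K (sub_ne_zero.mpr hac)).toFinset with hS2
  set S3 := (val_ne_one_finite K (sub_ne_zero.mpr hbc)).toFinset with hS3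
  refine ⟨2 * N + 2 * (S1.card + S2.card + S3.card) + 3, 2 * Module.finrank ℚ K, fun d hd => ?_⟩
  have hdK : (d : K) ≠ 0 := by exact_mod_cast hd
  obtain ⟨hfin, hcard⟩ := over_card K hd
  set S4 := hfin.toFinset with hS4
  have hcard4 : S4.card ≤ Module.finrank ℚ K * d.natAbs.primeFactors.card := by
    rw [← Set.ncard_eq_toFinset_card _ hfin]; exact hcard
  set S := S1 ∪ S2 ∪ S3 ∪ S4 with hS
  have hScard : S.card ≤ S1.card + S2.card + S3.card +
      Module.finrank ℚ K * d.natAbs.primeFactors.card := by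
    have h1 := Finset.card_union_le (S1 ∪ S2 ∪ S3) S4
    have h2 := Finset.card_union_le (S1 ∪ S2) S3
    have h3 := Finset.card_union_le S1 S2
    rw [hS]
    omega
  obtain ⟨A, _, f, hA, hf⟩ := hN S
  have hdab : (d : K) * a ≠ d * b := fun h => hab (mul_left_cancel₀ hdK h)
  have hdac : (d : K) * a ≠ d * c := fun h => hac (mul_left_cancel₀ hdK h)
  have hdbc : (d : K) * b ≠ d * c := fun h => hbc (mul_left_cancel₀ hdK h)
  have hval : ∀ v : HeightOneSpectrum (𝓞 K), v ∉ S → v.valuation K (a - b) = 1 ∧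
      v.valuation K (a - c) = 1 ∧ v.valuation K (b - c) = 1 ∧ v.valuation K (d : K) = 1 := by
    intro v hv
    rw [hS, Finset.mem_union, Finset.mem_union, Finset.mem_union, not_or, not_or, not_or] at hv
    obtain ⟨⟨⟨h1, h2⟩, h3⟩, h4⟩ := hv
    rw [hS1, Set.Finite.mem_toFinset, Set.mem_ofPred_eq, not_not] at h1
    rw [hS2, Set.Finite.mem_toFinset, Set.mem_ofPred_eq, not_not] at h2
    rw [hS3, Set.Finite.mem_toFinset, Set.mem_ofPred_eq, not_not] at h3
    rw [hS4, Set.Finite.mem_toFinset] at h4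
    exact ⟨h1, h2, h3, val_eq_one K h4⟩
  obtain ⟨hq1, hq2⟩ := card_quot (f := f) (a := (d : K) * a) (b := (d : K) * b) (c := (d : K) * c)
    (by norm_num) hdab hdac hdbc
    (fun z => ∀ v : HeightOneSpectrum (𝓞 K), v ∉ S → IsSquare (v.valuation K z))
    (fun z z' h1 h2 h3 h4 h5 => hf z z' h1 h2 h3 h4 h5) (by
      intro x y hy hxy
      have z₁ : (x - d * a) * (x - d * b) * (x - d * c) ≠ 0 := by
        rw [← hxy]; exact pow_ne_zero 2 hy
      have a₁' := (mul_ne_zero_iff.mp (mul_ne_zero_iff.mp z₁).1).2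
      have a₁'' := (mul_ne_zero_iff.mp (mul_ne_zero_iff.mp z₁).1).1
      constructor
      · intro v hv
        obtain ⟨h1, h2, h3, h4⟩ := hval v hv
        refine even_val (v.valuation K) a₁'' hxy ?_ ?_
        · rw [show x - d * b - (x - d * a) = d * (a - b) by ring, map_mul, h1, h4, mul_one]
        · rw [show x - d * c - (x - d * a) = d * (a - c) by ring, map_mul, h2, h4, mul_one]
      · intro v hv
        obtain ⟨h1, h2, h3, h4⟩ := hval v hv
        refine even_val (v.valuation K) (v := x - d * a) (w := x - d * c) (y := y) a₁'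
          (by rw [hxy]; ring) ?_ ?_
        · rw [show x - d * a - (x - d * b) = -(d * (a - b)) by ring, Valuation.map_neg, map_mul,
            h1, h4, mul_one]
        · rw [show x - d * c - (x - d * b) = d * (b - c) by ring, map_mul, h3, h4, mul_one])
  have hell := elliptic hdab hdac hdbc
  have hFG : AddGroup.FG (Cw ((d : K) * a) (d * b) (d * c)).toAffine.Point :=
    CNF.fg_of_weak _ (AddSubgroup.finiteIndex_of_finite_quotient)
  refine ⟨hFG, ?_⟩
  obtain ⟨T, _, _, ⟨e⟩⟩ := CN3.exists_equiv (Cw ((d : K) * a) (d * b) (d * c)).toAffine.Point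
  have h1 := (CN3.pow_rank_le hq1 e).trans hq2
  set r := Module.finrank ℤ (Cw ((d : K) * a) (d * b) (d * c)).toAffine.Point with hr
  have h2 : Fintype.card A ≤ 2 ^ (N + S.card) := by
    refine hA.trans ?_
    rw [pow_add]
    exact Nat.mul_le_mul_right _ (Nat.lt_two_pow_self).le
  have h3 : 2 ^ r ≤ 4 + 2 ^ (2 * (N + S.card)) := by
    refine h1.trans ?_
    have := Nat.pow_le_pow_left h2 2
    rw [← pow_mul, mul_comm (N + S.card) 2] at this
    omega
  have h4 : r ≤ 2 * (N + S.card) + 3 := by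
    by_contra hcon
    have h5 : 2 * (N + S.card) + 4 ≤ r := by omega
    have h6 := Nat.pow_le_pow_right (n := 2) (by norm_num) h5
    have h7 : 2 ^ (2 * (N + S.card) + 4) = 16 * 2 ^ (2 * (N + S.card)) := by
      rw [pow_add]; ring
    have h8 : 1 ≤ 2 ^ (2 * (N + S.card)) := Nat.one_le_two_pow
    omega
  have h9 : 2 * (Module.finrank ℚ K * d.natAbs.primeFactors.card) =
    2 * Module.finrank ℚ K * d.natAbs.primeFactors.card := by ring
  omega

end CN3G
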