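import Pool.Agent.W_92892c_h3.GenE

/-!
Mordell's theorem and the rank bound for all quadratic twists of every elliptic curve over `ℚ`.
-/

set_option autoImplicit false

namespace CN3G

open WeierstrassCurve WeierstrassCurve.Affine NumberField Polynomial

/-- The quadratic twist by `d` of `y² = x³ + a₂ x² + a₄ x + a₆`. -/
def gcurve (a2 a4 a6 d : ℤ) : WeierstrassCurve ℤ := ⟨0, d * a2, 0, d ^ 2 * a4, d ^ 3 * a6⟩

/-- The roots of the cubic in its splitting field. -/
lemma exists_field (a2 a4 a6 : ℤ) : ∃ (K : Type) (_ : Field K) (_ : NumberField K) (a b c : K),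
    (a2 : K) = -(a + b + c) ∧ (a4 : K) = a * b + a * c + b * c ∧ (a6 : K) = -(a * b * c) := by
  let P : Cubic ℚ := ⟨1, a2, a4, a6⟩
  let K := P.toPoly.SplittingField
  have : NumberField K := { to_charZero := inferInstance, to_finiteDimensional := inferInstance }
  have hs : (P.toPoly.map (algebraMap ℚ K)).Splits := SplittingField.splits _
  obtain ⟨x, y, z, h3⟩ := (Cubic.splits_iff_roots_eq_three (φ := algebraMap ℚ K)
    (by norm_num [P] : P.a ≠ 0)).mp hs
  have hb := Cubic.b_eq_three_roots (by norm_num [P] : P.a ≠ 0) h3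
  have hc := Cubic.c_eq_three_roots (by norm_num [P] : P.a ≠ 0) h3
  have hd := Cubic.d_eq_three_roots (by norm_num [P] : P.a ≠ 0) h3
  refine ⟨K, inferInstance, this, x, y, z, ?_, ?_, ?_⟩
  · simpa [P] using hb
  · simpa [P] using hc
  · simpa [P, mul_assoc] using hd

lemma gcurve_map {K : Type} [Field K] {a2 a4 a6 : ℤ} {a b c : K} (h2 : (a2 : K) = -(a + b + c))
    (h4 : (a4 : K) = a * b + a * c + b * c) (h6 : (a6 : K) = -(a * b * c)) (d : ℤ) :
    (gcurve a2 a4 a6 d).map (Int.castRingHom K) = Cw (d * a) (d * b) (d * c) := by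
  ext
  · simp [gcurve, Cw, WeierstrassCurve.map]
  · simp only [gcurve, Cw, WeierstrassCurve.map, Int.coe_castRingHom]
    push_cast
    rw [h2]; ring
  · simp [gcurve, Cw, WeierstrassCurve.map]
  · simp only [gcurve, Cw, WeierstrassCurve.map, Int.coe_castRingHom]
    push_cast
    rw [h4]; ring
  · simp only [gcurve, Cw, WeierstrassCurve.map, Int.coe_castRingHom]
    push_cast
    rw [h6]; ring

/-- Mordell's theorem and the rank bound for all twists. -/
theorem gcurve_bound (a2 a4 a6 : ℤ) (hΔ : (gcurve a2 a4 a6 1).Δ ≠ 0) : ∃ A B : ℕ,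
    ∀ d : ℤ, d ≠ 0 → AddGroup.FG (MQV.Points (gcurve a2 a4 a6 d)) ∧
      Module.finrank ℤ (MQV.Points (gcurve a2 a4 a6 d)) ≤ A + B * d.natAbs.primeFactors.card := by
  classical
  obtain ⟨K, _, _, a, b, c, h2, h4, h6⟩ := exists_field a2 a4 a6
  have hdisc : (16 : K) * ((a - b) * (a - c) * (b - c)) ^ 2 ≠ 0 := by
    have h := gcurve_map h2 h4 h6 1
    have h1 : (Cw ((1 : ℤ) * a) ((1 : ℤ) * b) ((1 : ℤ) * c)).Δ ≠ 0 := by
      rw [← h, WeierstrassCurve.map_Δ]
      simpa using hΔ
    rw [disc] at h1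
    simpa using h1
  have hab : a ≠ b := by rintro rfl; simp at hdisc
  have hac : a ≠ c := by rintro rfl; simp at hdisc
  have hbc : b ≠ c := by rintro rfl; simp at hdisc
  obtain ⟨A, B, hAB⟩ := nf_bound K hab hac hbc
  refine ⟨A, B, fun d hd => ?_⟩
  obtain ⟨h1, h2'⟩ := hAB d hd
  let g : ((gcurve a2 a4 a6 d)⁄ℚ).toAffine.Point →+ ((gcurve a2 a4 a6 d)⁄K).toAffine.Point :=
    Point.map (W' := gcurve a2 a4 a6 d) (Algebra.ofId ℚ K)
  have hg : Function.Injective g := Point.map_injective _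
  have hK : ((gcurve a2 a4 a6 d)⁄K) = Cw (d * a) (d * b) (d * c) := gcurve_map h2 h4 h6 d
  rw [← hK] at h1 h2'
  have hfin : Module.Finite ℤ ((gcurve a2 a4 a6 d)⁄K).toAffine.Point :=
    Module.Finite.iff_addGroup_fg.mpr h1
  have hfin' : Module.Finite ℤ ((gcurve a2 a4 a6 d)⁄ℚ).toAffine.Point :=
    Module.Finite.of_injective g.toIntLinearMap hg
  have hle := LinearMap.finrank_le_finrank_of_injective (f := g.toIntLinearMap) hg
  exact ⟨Module.Finite.iff_addGroup_fg.mp hfin', hle.trans h2'⟩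

end CN3G
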